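import Mathlib

/-!
# Superposition complexity in positive characteristic (project UPC, MP_da1d0d_al)

THEOREM. `k` algebraically closed of characteristic `p > 0`, `r ≥ 1`, `n ≤ 2 r + 2` (or
`n = 2 r + 3` and `p ∣ n`): the root `f` of the general polynomial of degree `n` lies in `M_r`.

`AC r Ω`: every set of at most `r` elements of the field `Ω` lies in an algebraically closed
subfield of `Ω`. The field `M_r` has this property. All the modules except `Tower` are about an
abstract field `Ω` of characteristic `p` with `AC r Ω`, `1 ≤ r`.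

A sesquilinear form `H : M →ₗ[Ω] M →ₛₗ[frobenius Ω p] Ω` is additive in both variables,
`H (a x) y = a H x y`, `H x (a y) = a ^ p H x y`. If it is nondegenerate (`ND H`) there is a unique
map `φ` with `H (φ y) x = (H x y) ^ p` (`Adj H φ`); it is semilinear for `a ↦ a ^ (p ^ 2)`.
`Fx Ω φ`: the fixed vectors of `φ` span.

MAIN THEOREM: if `AC r Ω`, `1 ≤ r` and `dim M ≤ 2 r + 1` then `Fx Ω φ`.
Application: `M` = a finite extension `L` of `Ω`, `H a b = Tr (a b ^ p)`, `φ y = y ^ (p ^ 2)`.
-/

namespace UPC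

/-- every set of at most `r` elements lies in an algebraically closed subfield -/
def AC (r : ℕ) (Ω : Type*) [Field Ω] : Prop :=
  ∀ S : Finset Ω, S.card ≤ r → ∃ F : Subfield Ω, IsAlgClosed F ∧ ∀ a ∈ S, a ∈ F

/-- the fixed vectors of `φ` span -/
def Fx (F : Type*) {V : Type*} [Field F] [AddCommGroup V] [Module F V] (φ : V → V) : Prop :=
  Submodule.span F {x : V | φ x = x} = ⊤

section

variable {Ω : Type*} [Field Ω] {p : ℕ} [Fact p.Prime] [CharP Ω p]
variable {M : Type*} [AddCommGroup M] [Module Ω M]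

/-- nondegenerate -/
def ND (H : M →ₗ[Ω] M →ₛₗ[frobenius Ω p] Ω) : Prop := ∀ x, (∀ y, H x y = 0) → x = 0

/-- `φ` is the map adjoined to `H` -/
def Adj (H : M →ₗ[Ω] M →ₛₗ[frobenius Ω p] Ω) (φ : M → M) : Prop :=
  ∀ x y, H (φ y) x = H x y ^ p

/-- the restriction of `H` to a submodule -/
noncomputable def res (H : M →ₗ[Ω] M →ₛₗ[frobenius Ω p] Ω) (N : Submodule Ω M) :
    N →ₗ[Ω] N →ₛₗ[frobenius Ω p] Ω :=
  H.domRestrict₁₂ N N

@[simp] theorem res_apply (H : M →ₗ[Ω] M →ₛₗ[frobenius Ω p] Ω) (N : Submodule Ω M) (x y : N) :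
    res H N x y = H x y := rfl

/-- the left orthogonal complement of a submodule -/
def lperp (H : M →ₗ[Ω] M →ₛₗ[frobenius Ω p] Ω) (W : Submodule Ω M) : Submodule Ω M where
  carrier := {y | ∀ w ∈ W, H y w = 0}
  add_mem' := by
    intro a b ha hb w hw
    rw [map_add, LinearMap.add_apply, ha w hw, hb w hw, add_zero]
  zero_mem' := by
    intro w _
    rw [map_zero, LinearMap.zero_apply]
  smul_mem' := by
    intro c a ha w hw
    rw [map_smul, LinearMap.smul_apply, ha w hw, smul_zero]

end

end UPC
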