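import Mathlib
import Pool.Agent.UPC.Defs

/-!
# Consequences of `AC` (project UPC, module UPC-Clo)

Everything follows by applying `AC` to a set with at most one element (`1 ≤ r`): `a` lies in an
algebraically closed subfield `F` of `Ω`; take a root in `F` of a polynomial with coefficients in
`F`. (`IsAlgClosed.exists_root`, `IsAlgClosed.exists_pow_nat_eq`.)
`art`: the polynomial `X ^ Q - X - C c` has positive degree. `infinite`: an algebraically closed
field is infinite. `alpha`: `α ^ (p ^ 2 - 1) = (α ^ (p + 1)) ^ (p - 1) = (-1) ^ (p - 1) = 1` (in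
characteristic `2` use `-1 = 1`). `fixed_mem`: `y` is integral over the image of the algebraically
closed field `F`, so it lies in the image of `F`
(e.g. `IsAlgClosed.algebraMap_surjective_of_isIntegral` for `F ⟮y⟯`, or: `X ^ (p ^ 2) - X` splits
over `F`, so all its roots in `L` come from `F`).
-/

namespace UPC

variable {Ω : Type*} [Field Ω] {r : ℕ}

theorem AC.mono {s : ℕ} (h : AC r Ω) (hs : s ≤ r) : AC s Ω := by
  exact fun S hS' => h S (hS'.trans hs)

theorem AC.infinite (h : AC r Ω) : Infinite Ω := by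
  obtain ⟨F, hF, -⟩ := h ∅ (by simp)
  haveI : Infinite F := inferInstance
  exact Infinite.of_injective (fun x : F => (x : Ω)) Subtype.val_injective

theorem AC.pow_root (h : AC r Ω) (hr : 1 ≤ r) {N : ℕ} (hN : 1 ≤ N) (a : Ω) :
    ∃ b : Ω, b ^ N = a := by
  obtain ⟨F, hF, hS⟩ := h {a} (by simpa using hr)
  obtain ⟨z, hz⟩ := IsAlgClosed.exists_pow_nat_eq (⟨a, hS a (by simp)⟩ : F)
    (Nat.lt_of_lt_of_le Nat.zero_lt_one hN)
  refine ⟨(z : Ω), ?_⟩
  have := congrArg (fun x : F => (x : Ω)) hz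
  simpa using this

theorem AC.scale (h : AC r Ω) (hr : 1 ≤ r) {N : ℕ} (hN : 1 ≤ N) {a : Ω} (ha : a ≠ 0) :
    ∃ l : Ω, l ≠ 0 ∧ l ^ N * a = 1 := by
  obtain ⟨b, hb⟩ := h.pow_root hr hN a⁻¹
  refine ⟨b, fun h0 => ?_, by rw [hb, inv_mul_cancel₀ ha]⟩
  rw [h0, zero_pow (by omega)] at hb
  exact inv_ne_zero ha hb.symm

theorem AC.art (h : AC r Ω) (hr : 1 ≤ r) {Q : ℕ} (hQ : 1 < Q) (c : Ω) :
    ∃ l : Ω, l ^ Q - l = c := by
  obtain ⟨F, hF, hS⟩ := h {c} (by simpa using hr)
  have hd : ((Polynomial.X : Polynomial F) ^ Q - (Polynomial.X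
      + Polynomial.C (⟨c, hS c (by simp)⟩ : F))).degree ≠ 0 := by
    have h1 : ((Polynomial.X : Polynomial F)
        + Polynomial.C (⟨c, hS c (by simp)⟩ : F)).degree < (Q : WithBot ℕ) := by
      rw [Polynomial.degree_X_add_C]
      exact_mod_cast hQ
    rw [Polynomial.degree_sub_eq_left_of_degree_lt (by rwa [Polynomial.degree_X_pow]),
      Polynomial.degree_X_pow]
    intro h2
    have h3 : Q = 0 := by exact_mod_cast h2
    omega
  obtain ⟨z, hz⟩ := IsAlgClosed.exists_root _ hd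
  refine ⟨(z : Ω), ?_⟩
  have h4 : z ^ Q - (z + (⟨c, hS c (by simp)⟩ : F)) = 0 := by
    simpa [Polynomial.IsRoot] using hz
  have h5 := congrArg (fun x : F => (x : Ω)) h4
  have h6 : (z : Ω) ^ Q - ((z : Ω) + c) = 0 := by simpa using h5
  linear_combination h6

theorem AC.alpha (h : AC r Ω) {p : ℕ} [Fact p.Prime] [CharP Ω p] :
    ∃ α : Ω, α ^ (p + 1) = -1 ∧ α ^ (p ^ 2) = α := by
  obtain ⟨F, hF, -⟩ := h ∅ (by simp)
  obtain ⟨z, hz⟩ := IsAlgClosed.exists_pow_nat_eq (-1 : F) (Nat.succ_pos p)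
  have h1 : (z : Ω) ^ (p + 1) = -1 := by
    have := congrArg (fun x : F => (x : Ω)) hz
    simpa using this
  have hp : p.Prime := Fact.out
  refine ⟨(z : Ω), h1, ?_⟩
  have h2 : p ^ 2 = (p + 1) * (p - 1) + 1 := by
    obtain ⟨q, rfl⟩ : ∃ q, p = q + 1 := ⟨p - 1, by have := hp.two_le; omega⟩
    simp only [Nat.add_sub_cancel]
    ring
  have h3 : (-1 : Ω) ^ (p - 1) = 1 := by
    rcases hp.eq_two_or_odd' with h4 | h4
    · subst h4
      have h5 : (2 : Ω) = 0 := by exact_mod_cast CharP.cast_eq_zero Ω 2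
      have h6 : (-1 : Ω) = 1 := by linear_combination -h5
      rw [h6, one_pow]
    · obtain ⟨q, hq⟩ := h4
      rw [hq, Nat.add_sub_cancel, pow_mul]
      simp
  rw [h2, pow_succ, pow_mul, h1, h3, one_mul]

theorem AC.fixed_mem (h : AC r Ω) {L : Type*} [Field L] [Algebra Ω L] {Q : ℕ} (hQ : 1 < Q)
    {y : L} (hy : y ^ Q = y) : ∃ a : Ω, algebraMap Ω L a = y := by
  obtain ⟨F, hF, -⟩ := h ∅ (by simp)
  letI : Algebra F L := ((algebraMap Ω L).comp F.subtype).toAlgebra
  have hi : IsIntegral F y := by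
    refine ⟨(Polynomial.X : Polynomial F) ^ Q - Polynomial.X, ?_, ?_⟩
    · refine Polynomial.monic_X_pow_sub ?_
      rw [Polynomial.degree_X]
      exact_mod_cast hQ
    · simp [hy]
  have hq : (minpoly F y).leadingCoeff = 1 := minpoly.monic hi
  have hd : (minpoly F y).degree = 1 :=
    IsAlgClosed.degree_eq_one_of_irreducible F (minpoly.irreducible hi)
  have h0 : Polynomial.aeval y (minpoly F y) = 0 := minpoly.aeval F y
  rw [Polynomial.eq_X_add_C_of_degree_eq_one hd, hq, Polynomial.C_1, one_mul,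
    map_add, Polynomial.aeval_X, Polynomial.aeval_C, add_eq_zero_iff_eq_neg] at h0
  refine ⟨-((minpoly F y).coeff 0 : F), ?_⟩
  rw [map_neg]
  exact h0.symm

end UPC
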