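import Mathlib
import Pool.Agent.UPC.Defs

/-!
# Cyclic subspaces of a semilinear map (project UPC, module UPC-Cyc)

`exists_cyc`: let `s` be minimal with `φ^[s] x ∈ span {φ^[j] x | j < s}` (it exists, otherwise the
family `φ^[j] x`, `j < finrank + 1`, would be linearly independent). `1 ≤ s` because `x ≠ 0`.
(`linearIndependent_fin_snoc` or `LinearIndependent` of `Fin.snoc`, induction on `s`.)
`cyc_stable`: `φ` maps the generator `φ^[j] x` to `φ^[j + 1] x`.
`surj_of_inj`: let `b` be a basis of `W`; the vectors `φ (b i) ∈ W` are linearly independent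
(`∑ c i • φ (b i) = φ (∑ d i • b i)` with `σ (d i) = c i`, `φ` injective), so they are a basis of
`W`, and `∑ c i • φ (b i) = φ (∑ d i • b i)`.
-/

namespace UPC

variable {F V : Type*} [Field F] [AddCommGroup V] [Module F V] {σ : F →+* F}

theorem exists_cyc [FiniteDimensional F V] (φ : V →ₛₗ[σ] V) {x : V} (hx : x ≠ 0) :
    ∃ s : ℕ, 1 ≤ s ∧ LinearIndependent F (fun j : Fin s => φ^[(j : ℕ)] x) ∧
      φ^[s] x ∈ Submodule.span F (Set.range fun j : Fin s => φ^[(j : ℕ)] x) := by
  classical
  have key : ∀ s : ℕ, (∀ t < s, φ^[t] x ∉ Submodule.span F (Set.range fun j : Fin t =>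
      φ^[(j : ℕ)] x)) → LinearIndependent F (fun j : Fin s => φ^[(j : ℕ)] x) := by
    intro s
    induction s with
    | zero => intro _; exact linearIndependent_empty_type
    | succ s ih =>
      intro h
      rw [linearIndependent_fin_succ']
      exact ⟨ih fun t ht => h t (by omega), h s (by omega)⟩
  have hex : ∃ s : ℕ, φ^[s] x ∈ Submodule.span F (Set.range fun j : Fin s => φ^[(j : ℕ)] x) := by
    by_contra hne
    push Not at hne
    have h1 := (key (Module.finrank F V + 1) fun t _ => hne t).fintype_card_le_finrank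
    rw [Fintype.card_fin] at h1
    omega
  refine ⟨Nat.find hex, ?_, key _ fun t ht => Nat.find_min hex ht, Nat.find_spec hex⟩
  rw [Nat.one_le_iff_ne_zero]
  intro h0
  have h1 := Nat.find_spec hex
  rw [h0] at h1
  simp at h1
  exact hx h1

theorem cyc_stable (φ : V →ₛₗ[σ] V) {x : V} {s : ℕ}
    (h : φ^[s] x ∈ Submodule.span F (Set.range fun j : Fin s => φ^[(j : ℕ)] x)) {y : V}
    (hy : y ∈ Submodule.span F (Set.range fun j : Fin s => φ^[(j : ℕ)] x)) :
    φ y ∈ Submodule.span F (Set.range fun j : Fin s => φ^[(j : ℕ)] x) := by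
  induction hy using Submodule.span_induction with
  | mem y hy =>
    obtain ⟨j, rfl⟩ := hy
    simp only
    rw [← Function.iterate_succ_apply' φ]
    rcases Nat.lt_or_ge ((j : ℕ) + 1) s with h1 | h1
    · exact Submodule.subset_span ⟨⟨(j : ℕ) + 1, h1⟩, rfl⟩
    · have h2 : (j : ℕ) + 1 = s := by omega
      rw [Nat.succ_eq_add_one, h2]
      exact h
  | zero => rw [map_zero]; exact Submodule.zero_mem _
  | add a b _ _ ha hb => rw [map_add]; exact Submodule.add_mem _ ha hb
  | smul c a _ ha => rw [LinearMap.map_smulₛₗ]; exact Submodule.smul_mem _ _ ha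

theorem surj_of_inj [FiniteDimensional F V] (φ : V →ₛₗ[σ] V) (hi : Function.Injective φ)
    (hσ : Function.Surjective σ) (W : Submodule F V) (hW : ∀ y ∈ W, φ y ∈ W) {y : V}
    (hy : y ∈ W) : ∃ z ∈ W, φ z = y := by
  classical
  let b := Module.finBasis F W
  let v : Fin (Module.finrank F W) → W := fun i => ⟨φ (b i : V), hW _ (b i).2⟩
  have hc : ∀ g : Fin (Module.finrank F W) → F, ∃ d : Fin (Module.finrank F W) → F,
      ∀ i, σ (d i) = g i := fun g => ⟨fun i => (hσ (g i)).choose, fun i => (hσ (g i)).choose_spec⟩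
  have hs : ∀ g d : Fin (Module.finrank F W) → F, (∀ i, σ (d i) = g i) →
      ((∑ i, g i • v i : W) : V) = φ ((∑ i, d i • b i : W) : V) := by
    intro g d h
    push_cast
    rw [map_sum]
    refine Finset.sum_congr rfl fun i _ => ?_
    rw [LinearMap.map_smulₛₗ, h i]
  have hli : LinearIndependent F v := by
    rw [Fintype.linearIndependent_iff]
    intro g hg
    obtain ⟨d, hd⟩ := hc g
    have h1 := hs g d hd
    rw [hg] at h1
    have h2 : ((∑ i, d i • b i : W) : V) = 0 := hi (by rw [← h1, map_zero]; rfl)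
    have h3 : (∑ i, d i • b i : W) = 0 := by exact_mod_cast h2
    have h4 := Fintype.linearIndependent_iff.1 b.linearIndependent d h3
    intro i
    rw [← hd i, h4 i, map_zero]
  have hsp := hli.span_eq_top_of_card_eq_finrank' (by rw [Fintype.card_fin])
  have h5 : (⟨y, hy⟩ : W) ∈ Submodule.span F (Set.range v) := by rw [hsp]; trivial
  obtain ⟨g, hg⟩ := (Submodule.mem_span_range_iff_exists_fun F).1 h5
  obtain ⟨d, hd⟩ := hc g
  refine ⟨((∑ i, d i • b i : W) : V), (∑ i, d i • b i : W).2, ?_⟩
  rw [← hs g d hd, hg]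

end UPC
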