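import Mathlib
import Pool.Agent.UPC.Defs

/-!
# Lifting fixed vectors (project UPC, module UPC-ExtFix)

`fix_lift`: write `φ y - y = ∑ c i • v i` with fixed vectors `v i ∈ W` (a finite sum,
`Submodule.mem_span_set'` or induction on the span), choose `l i` with `σ (l i) - l i = - c i` and
`w = ∑ l i • v i`. Good formulation for an induction: for every `z` in the span there is `w` in the
span with `φ w - w = z`.
`fix_of_quot`: let `S` be the span of all fixed vectors. `W ≤ S`. A fixed vector of the quotient is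
the class of `y` with `φ y - y ∈ W`, so by `fix_lift` of a fixed vector. So the image of `S` in the
quotient contains the span of the fixed vectors, `S + W = ⊤`, `S = ⊤`.
-/

namespace UPC

variable {F V : Type*} [Field F] [AddCommGroup V] [Module F V] {σ : F →+* F}

private theorem fix_lift_aux (φ : V →ₛₗ[σ] V) (as : ∀ c : F, ∃ l : F, σ l - l = c)
    (W : Submodule F V) {z : V} (hz : z ∈ Submodule.span F {x : V | x ∈ W ∧ φ x = x}) :
    ∀ a : F, ∃ w ∈ W, φ w - w = a • z := by
  induction hz using Submodule.span_induction with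
  | mem x hx =>
    intro a
    obtain ⟨l, hl⟩ := as a
    refine ⟨l • x, W.smul_mem l hx.1, ?_⟩
    rw [LinearMap.map_smulₛₗ, hx.2, ← sub_smul, hl]
  | zero =>
    intro a
    exact ⟨0, W.zero_mem, by simp⟩
  | add x y _ _ hx hy =>
    intro a
    obtain ⟨w, hw, h⟩ := hx a
    obtain ⟨w', hw', h'⟩ := hy a
    refine ⟨w + w', W.add_mem hw hw', ?_⟩
    rw [smul_add, ← h, ← h', map_add]
    abel
  | smul b x _ hx =>
    intro a
    obtain ⟨w, hw, h⟩ := hx (a * b)
    exact ⟨w, hw, by rw [h, mul_smul]⟩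

theorem fix_lift (φ : V →ₛₗ[σ] V) (as : ∀ c : F, ∃ l : F, σ l - l = c) (W : Submodule F V)
    (h1 : W ≤ Submodule.span F {x : V | x ∈ W ∧ φ x = x}) {y : V} (hy : φ y - y ∈ W) :
    ∃ w ∈ W, φ (y + w) = y + w := by
  obtain ⟨w, hw, h⟩ := fix_lift_aux φ as W (h1 (W.neg_mem hy)) 1
  refine ⟨w, hw, ?_⟩
  rw [one_smul] at h
  rw [map_add, ← sub_eq_zero]
  have h2 : φ y + φ w - (y + w) = (φ y - y) + (φ w - w) := by abel
  rw [h2, h, add_neg_cancel]

theorem fix_of_quot (φ : V →ₛₗ[σ] V) (as : ∀ c : F, ∃ l : F, σ l - l = c) (W : Submodule F V)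
    (hW : W ≤ W.comap φ) (h1 : W ≤ Submodule.span F {x : V | x ∈ W ∧ φ x = x})
    (h2 : Fx F (W.mapQ W φ hW)) : Fx F φ := by
  have hWS : W ≤ Submodule.span F {x : V | φ x = x} :=
    h1.trans (Submodule.span_mono fun x hx => hx.2)
  have h3 : Submodule.span F {q : V ⧸ W | W.mapQ W φ hW q = q}
      ≤ (Submodule.span F {x : V | φ x = x}).map W.mkQ := by
    rw [Submodule.span_le]
    intro q hq
    obtain ⟨y, rfl⟩ := W.mkQ_surjective q
    have h4 : φ y - y ∈ W := by
      rw [← Submodule.Quotient.eq W]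
      simpa using hq
    obtain ⟨w, hw, h5⟩ := fix_lift φ as W h1 h4
    refine ⟨y + w, Submodule.subset_span h5, ?_⟩
    rw [map_add, Submodule.mkQ_apply, Submodule.mkQ_apply, (Submodule.Quotient.mk_eq_zero W).2 hw,
      add_zero]
  rw [Fx] at h2 ⊢
  rw [h2] at h3
  rw [eq_top_iff]
  intro x _
  obtain ⟨s, hs, h6⟩ := h3 (Submodule.mem_top (x := W.mkQ x))
  have h7 : x - s ∈ W := by
    rw [← Submodule.Quotient.eq W]
    exact h6.symm
  have h8 := Submodule.add_mem _ (hWS h7) hs
  rwa [sub_add_cancel] at h8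

/-- `Fx` for the restriction of `φ` to `W` in terms of `V` -/
theorem fx_sub (W : Submodule F V) (ψ : W → W) (φ : V → V) (hψ : ∀ w : W, ((ψ w : W) : V) = φ w)
    (h : Fx F ψ) : W ≤ Submodule.span F {x : V | x ∈ W ∧ φ x = x} := by
  intro x hx
  have h1 : (⟨x, hx⟩ : W) ∈ Submodule.span F {x : W | ψ x = x} := by
    rw [Fx] at h
    rw [h]
    exact Submodule.mem_top
  have h2 := Submodule.mem_map_of_mem (f := W.subtype) h1
  rw [Submodule.map_span] at h2
  refine Submodule.span_mono ?_ h2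
  rintro _ ⟨w, hw, rfl⟩
  refine ⟨w.2, ?_⟩
  rw [Submodule.subtype_apply, ← hψ w]
  exact congrArg (fun v : W => (v : V)) hw

end UPC
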