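import Mathlib
import Pool.Agent.UPC.Cyc
import Pool.Agent.UPC.ExtFix

/-!
# Lang's theorem for semilinear maps (project UPC, module UPC-Lang)

`F` algebraically closed, `σ a = a ^ Q`, `φ` injective and `σ`-semilinear on a finite dimensional
space `V`: the fixed vectors of `φ` span `V`.

`exists_fix`: `V ≠ 0` has a fixed vector `≠ 0`. Take `x ≠ 0` and `s` from `exists_cyc`,
`φ^[s] x = ∑ j < s, c j • φ^[j] x`, not all `c j` are zero (`φ` injective). Let
`A j = ∑ i ≤ j, C (c i ^ Q ^ (j - i)) * X ^ Q ^ (j - i + 1)`, so `A 0 = C (c 0) * X ^ Q` and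
`A (j + 1) = (A j) ^ Q + C (c (j + 1)) * X ^ Q` as functions. If `t ≠ 0` and
`A (s - 1) (t) = t` then `w = ∑ j < s, A j (t) • φ^[j] x` is fixed: `φ w = ∑ (A j (t)) ^ Q •
φ^[j + 1] x`, `(A (s - 1) (t)) ^ Q = t ^ Q`, and `w ≠ 0` since its last coefficient is `t`.
`t` exists: `A (s - 1) - X = X * B` where `B` has constant coefficient `-1` and is not constant
because the exponents `Q ^ (s - i)` are different and some `c i ≠ 0`.
(Any other way to find `t` is welcome: e.g. the additive polynomial `A (s - 1) - X` is separable of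
degree at least `Q`, so it has at least two roots.)
`lang`: induction on `finrank F V`. Let `w ≠ 0` be fixed, `W = F w`; `φ` is injective on `V / W`
(`φ y = c • w = φ (d • w)`, `d ^ Q = c`), use `fix_of_quot`.
-/

namespace UPC

open Polynomial in
private theorem exists_t {F : Type*} [Field F] [IsAlgClosed F] {Q : ℕ} (hQ : 1 < Q) (c : ℕ → F)
    (s : ℕ) (hc : ∃ i < s, c i ≠ 0) :
    ∃ t : F, t ≠ 0 ∧ ∑ i ∈ Finset.range s, c i ^ Q ^ (s - 1 - i) * t ^ Q ^ (s - 1 - i + 1) = t := by
  classical
  obtain ⟨i0, hi0, hci⟩ := hc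
  let B : F[X] := (∑ i ∈ Finset.range s, C (c i ^ Q ^ (s - 1 - i)) * X ^ (Q ^ (s - 1 - i + 1) - 1))
    - 1
  have hpos : ∀ i, 0 < Q ^ (s - 1 - i + 1) - 1 := by
    intro i
    have h1 : 1 < Q ^ (s - 1 - i + 1) := Nat.one_lt_pow (by omega) hQ
    omega
  have hcoef : B.coeff (Q ^ (s - 1 - i0 + 1) - 1) = c i0 ^ Q ^ (s - 1 - i0) := by
    simp only [B, coeff_sub, finset_sum_coeff, coeff_C_mul, coeff_X_pow, coeff_one]
    rw [if_neg (hpos i0).ne', sub_zero, Finset.sum_eq_single_of_mem i0 (Finset.mem_range.2 hi0)]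
    · simp
    · intro j hj hne
      rw [if_neg, mul_zero]
      intro h
      have hj := Finset.mem_range.1 hj
      have h1 := hpos i0
      have h2 := hpos j
      have h3 : Q ^ (s - 1 - i0 + 1) = Q ^ (s - 1 - j + 1) := by omega
      have h4 := Nat.pow_right_injective hQ h3
      omega
  have hdeg : B.degree ≠ 0 := by
    intro h
    have h1 : B.coeff (Q ^ (s - 1 - i0 + 1) - 1) = 0 := by
      refine coeff_eq_zero_of_degree_lt ?_
      rw [h]
      exact_mod_cast hpos i0
    rw [hcoef] at h1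
    exact hci (pow_eq_zero_iff (pow_pos (by omega) _).ne' |>.1 h1)
  obtain ⟨t, ht⟩ := IsAlgClosed.exists_root B hdeg
  have ht' : ∑ i ∈ Finset.range s, c i ^ Q ^ (s - 1 - i) * t ^ (Q ^ (s - 1 - i + 1) - 1) = 1 := by
    have h1 : B.eval t = 0 := ht
    simp only [B, eval_sub, eval_finset_sum, eval_mul, eval_C, eval_pow, eval_X, eval_one] at h1
    exact sub_eq_zero.1 h1
  refine ⟨t, ?_, ?_⟩
  · rintro rfl
    rw [Finset.sum_eq_zero] at ht'
    · exact one_ne_zero ht'.symm
    · intro i _
      rw [zero_pow (hpos i).ne', mul_zero]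
  · calc ∑ i ∈ Finset.range s, c i ^ Q ^ (s - 1 - i) * t ^ Q ^ (s - 1 - i + 1)
        = (∑ i ∈ Finset.range s, c i ^ Q ^ (s - 1 - i) * t ^ (Q ^ (s - 1 - i + 1) - 1)) * t := by
          rw [Finset.sum_mul]
          refine Finset.sum_congr rfl fun i _ => ?_
          have h1 : Q ^ (s - 1 - i + 1) = (Q ^ (s - 1 - i + 1) - 1) + 1 := by
            have := hpos i
            omega
          conv_lhs => rw [h1, pow_succ]
          ring
      _ = t := by rw [ht', one_mul]

/-- the coefficients of the fixed vector -/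
private def co {F : Type*} [Field F] (Q : ℕ) (c : ℕ → F) (t : F) : ℕ → F
  | 0 => c 0 * t ^ Q
  | j + 1 => co Q c t j ^ Q + c (j + 1) * t ^ Q

private theorem co_eq {F : Type*} [Field F] {σ : F →+* F} {Q : ℕ} (hσ : ∀ a, σ a = a ^ Q)
    (c : ℕ → F) (t : F) (j : ℕ) :
    co Q c t j = ∑ i ∈ Finset.range (j + 1), c i ^ Q ^ (j - i) * t ^ Q ^ (j - i + 1) := by
  induction j with
  | zero => simp [co]
  | succ j ih =>
    rw [co, ih, ← hσ, map_sum, Finset.sum_range_succ _ (j + 1)]
    congr 1
    · refine Finset.sum_congr rfl fun i hi => ?_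
      have hi := Finset.mem_range.1 hi
      have h1 : j + 1 - i = j - i + 1 := by omega
      rw [hσ, mul_pow, ← pow_mul, ← pow_mul, ← pow_succ, ← pow_succ, h1]
    · simp

variable {F V : Type*} [Field F] [IsAlgClosed F] [AddCommGroup V] [Module F V]
  [FiniteDimensional F V] {σ : F →+* F}

theorem exists_fix {Q : ℕ} (hQ : 1 < Q) (hσ : ∀ a, σ a = a ^ Q) (φ : V →ₛₗ[σ] V)
    (hi : Function.Injective φ) [Nontrivial V] : ∃ w : V, w ≠ 0 ∧ φ w = w := by
  classical
  obtain ⟨x, hx⟩ := exists_ne (0 : V)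
  obtain ⟨s, hs, hli, hmem⟩ := exists_cyc φ hx
  obtain ⟨c0, hc0⟩ := (Submodule.mem_span_range_iff_exists_fun F).1 hmem
  let c : ℕ → F := fun i => if h : i < s then c0 ⟨i, h⟩ else 0
  have hc : φ^[s] x = ∑ j ∈ Finset.range s, c j • φ^[j] x := by
    rw [← hc0, Finset.sum_range]
    refine Finset.sum_congr rfl fun j _ => ?_
    simp [c]
  have hne : ∃ i < s, c i ≠ 0 := by
    by_contra h
    push Not at h
    rw [Finset.sum_eq_zero (fun i hi => by rw [h i (Finset.mem_range.1 hi), zero_smul])] at hc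
    have h1 : Function.Injective (φ^[s]) := hi.iterate s
    have h2 : φ^[s] (0 : V) = 0 := by
      have h3 : ∀ k : ℕ, φ^[k] (0 : V) = 0 := by
        intro k
        induction k with
        | zero => rfl
        | succ k ih => rw [Function.iterate_succ_apply, map_zero, ih]
      exact h3 s
    exact hx (h1 (hc.trans h2.symm))
  obtain ⟨t, ht0, ht⟩ := exists_t hQ c s hne
  have hlast : co Q c t (s - 1) = t := by
    rw [co_eq hσ, Nat.sub_add_cancel hs]
    exact ht
  obtain ⟨m, rfl⟩ : ∃ m, s = m + 1 := ⟨s - 1, by omega⟩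
  rw [Nat.add_sub_cancel] at hlast
  refine ⟨∑ j ∈ Finset.range (m + 1), co Q c t j • φ^[j] x, ?_, ?_⟩
  · intro h0
    rw [Finset.sum_range] at h0
    have h1 := Fintype.linearIndependent_iff.1 hli (fun j => co Q c t j) h0 (Fin.last m)
    simp only [Fin.val_last] at h1
    rw [hlast] at h1
    exact ht0 h1
  · rw [map_sum]
    simp only [LinearMap.map_smulₛₗ, hσ, ← Function.iterate_succ_apply' φ]
    rw [Finset.sum_range_succ, hlast, Nat.succ_eq_add_one, hc, Finset.smul_sum,
      Finset.sum_range_succ' (fun j => co Q c t j • φ^[j] x),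
      Finset.sum_range_succ' (fun j => t ^ Q • c j • φ^[j] x), ← add_assoc,
      ← Finset.sum_add_distrib]
    congr 1
    · refine Finset.sum_congr rfl fun j _ => ?_
      rw [Nat.succ_eq_add_one, co, add_smul, smul_smul, mul_comm (c (j + 1))]
    · rw [co, smul_smul, mul_comm]

private theorem lang_aux {F : Type*} [Field F] [IsAlgClosed F] {σ : F →+* F} {Q : ℕ} (hQ : 1 < Q)
    (hσ : ∀ a, σ a = a ^ Q) (n : ℕ) : ∀ (V : Type _) [AddCommGroup V] [Module F V]
    [FiniteDimensional F V] (φ : V →ₛₗ[σ] V), Function.Injective φ → Module.finrank F V = n →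
    Fx F φ := by
  induction n with
  | zero =>
    intro V _ _ _ φ _ hn
    have := Module.finrank_zero_iff.1 hn
    exact Subsingleton.elim _ _
  | succ n ih =>
    intro V _ _ _ φ hi hn
    have hnt : Nontrivial V := Module.nontrivial_of_finrank_pos (R := F) (by omega)
    obtain ⟨w, hw0, hw⟩ := exists_fix hQ hσ φ hi
    let W : Submodule F V := Submodule.span F {w}
    have hwW : w ∈ W := Submodule.mem_span_singleton_self w
    have hW : W ≤ W.comap φ := by
      intro y hy
      obtain ⟨c, rfl⟩ := Submodule.mem_span_singleton.1 hy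
      rw [Submodule.mem_comap, LinearMap.map_smulₛₗ, hw]
      exact W.smul_mem _ hwW
    have h1 : W ≤ Submodule.span F {x : V | x ∈ W ∧ φ x = x} := by
      rw [Submodule.span_le, Set.singleton_subset_iff]
      exact Submodule.subset_span ⟨hwW, hw⟩
    have hroot : ∀ c : F, ∃ d : F, d ^ Q = c := fun c =>
      IsAlgClosed.exists_pow_nat_eq c (by omega)
    have as : ∀ c : F, ∃ l : F, σ l - l = c := by
      intro c
      have hd : (Polynomial.X ^ Q - Polynomial.X - Polynomial.C c : Polynomial F).degree ≠ 0 := by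
        have h2 : (Polynomial.X ^ Q - Polynomial.X - Polynomial.C c : Polynomial F).degree = Q := by
          have h3 : (Polynomial.X + Polynomial.C c : Polynomial F).degree < Q := by
            rw [Polynomial.degree_X_add_C]
            exact_mod_cast hQ
          rw [sub_sub, Polynomial.degree_sub_eq_left_of_degree_lt]
          · exact Polynomial.degree_X_pow Q
          · rw [Polynomial.degree_X_pow]
            exact h3
        rw [h2]
        have : Q ≠ 0 := by omega
        exact_mod_cast this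
      obtain ⟨l, hl⟩ := IsAlgClosed.exists_root _ hd
      refine ⟨l, ?_⟩
      rw [Polynomial.IsRoot.def] at hl
      simp only [Polynomial.eval_sub, Polynomial.eval_pow, Polynomial.eval_X,
        Polynomial.eval_C] at hl
      rw [hσ]
      exact sub_eq_zero.1 hl
    refine fix_of_quot φ as W hW h1 (ih (V ⧸ W) (W.mapQ W φ hW) ?_ ?_)
    · rw [injective_iff_map_eq_zero]
      intro z hz
      obtain ⟨y, rfl⟩ := Submodule.Quotient.mk_surjective W z
      rw [Submodule.mapQ_apply, Submodule.Quotient.mk_eq_zero] at hz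
      obtain ⟨c, hc⟩ := Submodule.mem_span_singleton.1 hz
      obtain ⟨d, hd⟩ := hroot c
      have h2 : φ y = φ (d • w) := by rw [LinearMap.map_smulₛₗ, hσ, hd, hw, hc]
      rw [hi h2]
      exact (Submodule.Quotient.mk_eq_zero W).2 (W.smul_mem _ hwW)
    · have h2 := W.finrank_quotient_add_finrank
      have h3 : Module.finrank F W = 1 := finrank_span_singleton hw0
      omega

theorem lang {Q : ℕ} (hQ : 1 < Q) (hσ : ∀ a, σ a = a ^ Q) (φ : V →ₛₗ[σ] V)
    (hi : Function.Injective φ) : Fx F φ :=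
  lang_aux hQ hσ _ V φ hi rfl

end UPC
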