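import Mathlib
import Pool.Agent.UPC.Lang

/-!
# Cyclic modules defined over an algebraically closed subfield (project UPC, module UPC-CycFix)

Let `V' = Fin s → F`, `ψ a = (fun j => (if j = 0 then 0 else (a (j - 1)) ^ Q) + c j * a (s - 1) ^ Q)`
(the companion map) and `ι : V' → V`, `ι a = ∑ j, (a j : Ω) • φ^[j] x`. Then `ι (ψ a) = φ (ι a)`,
`ι` is additive and injective, `φ` is injective, so `ψ` is injective; it is semilinear for
`τ : F →+* F`, `τ a = a ^ Q` (the restriction of `σ`). `lang` gives fixed vectors of `ψ` spanning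
`V'` over `F`; their images under `ι` are fixed and each `φ^[j] x = ι (e_j)` is in their `F`-span.
(`s = 0`: `V` is zero.)
-/

namespace UPC

variable {Ω V : Type*} [Field Ω] [AddCommGroup V] [Module Ω V] {σ : Ω →+* Ω}

theorem cyc_fix {Q : ℕ} (hQ : 1 < Q) (hσ : ∀ a, σ a = a ^ Q) (φ : V →ₛₗ[σ] V)
    (hi : Function.Injective φ) (F : Subfield Ω) (hF : IsAlgClosed F) {s : ℕ} (x : V)
    (li : LinearIndependent Ω (fun j : Fin s => φ^[(j : ℕ)] x))
    (sp : Submodule.span Ω (Set.range fun j : Fin s => φ^[(j : ℕ)] x) = ⊤)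
    (c : Fin s → F) (hc : φ^[s] x = ∑ j, (c j : Ω) • φ^[(j : ℕ)] x) : Fx Ω φ := by
  classical
  let τ : F →+* F := (σ.comp F.subtype).codRestrict F (fun a => by
    rw [RingHom.comp_apply, hσ]
    exact pow_mem a.2 Q)
  have hτ : ∀ a : F, ((τ a : F) : Ω) = σ (a : Ω) := fun a => rfl
  have hτ' : ∀ a : F, τ a = a ^ Q := fun a => Subtype.ext (by
    rw [hτ, hσ]
    rfl)
  let ι : (Fin s → F) →+ V :=
    { toFun := fun a => ∑ j, (a j : Ω) • φ^[(j : ℕ)] x
      map_zero' := by simp
      map_add' := fun a b => by simp [add_smul, Finset.sum_add_distrib] }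
  have hι : ∀ a, ι a = ∑ j, (a j : Ω) • φ^[(j : ℕ)] x := fun a => rfl
  have hιs : ∀ (t : F) (a : Fin s → F), ι (t • a) = (t : Ω) • ι a := by
    intro t a
    rw [hι, hι, Finset.smul_sum]
    refine Finset.sum_congr rfl fun j _ => ?_
    rw [smul_smul]
    rfl
  have hιe : ∀ j : Fin s, ι (Pi.single j 1) = φ^[(j : ℕ)] x := by
    intro j
    rw [hι, Finset.sum_eq_single j]
    · simp
    · intro i _ hij
      rw [Pi.single_eq_of_ne hij]
      simp
    · intro h
      exact absurd (Finset.mem_univ j) h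
  let e : Fin s → (Fin s → F) := fun j =>
    if h : (j : ℕ) + 1 < s then Pi.single ⟨j + 1, h⟩ 1 else c
  have he : ∀ j : Fin s, ι (e j) = φ^[(j : ℕ) + 1] x := by
    intro j
    by_cases h : (j : ℕ) + 1 < s
    · simp only [e, dif_pos h]
      rw [hιe]
    · simp only [e, dif_neg h]
      have hj : (j : ℕ) + 1 = s := by have := j.2; omega
      rw [hι, ← hc, hj]
  let ψ : (Fin s → F) →ₛₗ[τ] (Fin s → F) :=
    { toFun := fun a => ∑ j, τ (a j) • e j
      map_add' := fun a b => by
        rw [← Finset.sum_add_distrib]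
        refine Finset.sum_congr rfl fun j _ => ?_
        rw [Pi.add_apply, map_add, add_smul]
      map_smul' := fun t a => by
        rw [Finset.smul_sum]
        refine Finset.sum_congr rfl fun j _ => ?_
        rw [Pi.smul_apply, smul_eq_mul, map_mul, mul_smul] }
  have hψ : ∀ a, ψ a = ∑ j, τ (a j) • e j := fun a => rfl
  have hιψ : ∀ a, ι (ψ a) = φ (ι a) := by
    intro a
    rw [hψ, map_sum, hι, map_sum]
    refine Finset.sum_congr rfl fun j _ => ?_
    rw [hιs, he, LinearMap.map_smulₛₗ, hτ, Function.iterate_succ_apply']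
  have hιi : Function.Injective ι := by
    rw [injective_iff_map_eq_zero]
    intro a ha
    rw [hι] at ha
    funext j
    exact Subtype.ext (Fintype.linearIndependent_iff.1 li (fun j => (a j : Ω)) ha j)
  have hψi : Function.Injective ψ := by
    intro a b hab
    apply hιi
    apply hi
    rw [← hιψ, ← hιψ, hab]
  have hL : Fx F ψ := lang hQ hτ' ψ hψi
  rw [Fx] at hL ⊢
  have hm : ∀ v ∈ Submodule.span F {v : Fin s → F | ψ v = v},
      ι v ∈ Submodule.span Ω {x : V | φ x = x} := by
    intro v hv
    induction hv using Submodule.span_induction with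
    | mem v hv => exact Submodule.subset_span (by
        change φ (ι v) = ι v
        rw [← hιψ]
        exact congrArg ι hv)
    | zero => rw [map_zero]; exact Submodule.zero_mem _
    | add u v _ _ hu hv => rw [map_add]; exact Submodule.add_mem _ hu hv
    | smul t v _ hv => rw [hιs]; exact Submodule.smul_mem _ _ hv
  rw [eq_top_iff, ← sp, Submodule.span_le]
  rintro _ ⟨j, rfl⟩
  have h := hm (Pi.single j 1) (by rw [hL]; exact Submodule.mem_top)
  rw [hιe] at h
  exact h

end UPC
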