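import Mathlib
import Pool.Agent.UPC.Defs

/-!
# The adjoined semilinear map (project UPC, module UPC-Phi)

Let `b` be a basis of `M`, `Θ x = (H x (b i))_i`: linear and injective (`ND`, a semilinear
functional is determined by its values on `b`), so bijective `M → (ι → Ω)`.
`exists_adj`: `φ y = Θ⁻¹ (fun i => (H (b i) y) ^ p)`; `H (φ y) (∑ a i • b i) =
∑ a i ^ p * (H (b i) y) ^ p = (H (∑ a i • b i) y) ^ p`.
`nd_right`: if `y = ∑ a i • b i` and `a i₀ ≠ 0` choose `x` with `H x (b i) = δ_{i i₀}`, then
`H x y = a i₀ ^ p ≠ 0`. `exists_ne`: otherwise `0 = H (x + a y) (x + a y) = a H y x + a ^ p H x y`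
for all `a`, `x`, `y`; `Ω` is infinite, so `H x y = 0` (a polynomial of degree `≤ p`).
-/

namespace UPC

variable {Ω : Type*} [Field Ω] {p : ℕ} [Fact p.Prime] [CharP Ω p]
variable {M : Type*} [AddCommGroup M] [Module Ω M] [FiniteDimensional Ω M]
variable {H : M →ₗ[Ω] M →ₛₗ[frobenius Ω p] Ω}

omit [FiniteDimensional Ω M] in
private theorem exp_right {ι : Type*} [Fintype ι] (b : Module.Basis ι Ω M)
    (L : M →ₛₗ[frobenius Ω p] Ω) (y : M) : L y = ∑ i, (b.repr y i) ^ p * L (b i) := by
  conv_lhs => rw [← b.sum_repr y]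
  rw [map_sum]
  refine Finset.sum_congr rfl fun i _ => ?_
  rw [LinearMap.map_smulₛₗ, frobenius_def, smul_eq_mul]

omit [FiniteDimensional Ω M] in
private theorem exp_left {ι : Type*} [Fintype ι] (b : Module.Basis ι Ω M) (x y : M) :
    H x y = ∑ i, b.repr x i * H (b i) y := by
  conv_lhs => rw [← b.sum_repr x]
  rw [map_sum, LinearMap.sum_apply]
  refine Finset.sum_congr rfl fun i _ => ?_
  rw [LinearMap.map_smul, LinearMap.smul_apply, smul_eq_mul]

/-- the values on a basis -/
private noncomputable def Th (H : M →ₗ[Ω] M →ₛₗ[frobenius Ω p] Ω) {ι : Type*} (b : Module.Basis ι Ω M) :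
    M →ₗ[Ω] (ι → Ω) where
  toFun x i := H x (b i)
  map_add' x y := by
    funext i
    rw [map_add, LinearMap.add_apply, Pi.add_apply]
  map_smul' c x := by
    funext i
    rw [LinearMap.map_smul, LinearMap.smul_apply, RingHom.id_apply, Pi.smul_apply]

omit [FiniteDimensional Ω M] in
private theorem Th_inj (nd : ND H) {ι : Type*} [Fintype ι] (b : Module.Basis ι Ω M) :
    Function.Injective (Th H b) := by
  rw [← LinearMap.ker_eq_bot, LinearMap.ker_eq_bot']
  intro x hx
  refine nd x fun y => ?_
  rw [exp_right b (H x) y]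
  refine Finset.sum_eq_zero fun i _ => ?_
  have : H x (b i) = 0 := congrFun hx i
  rw [this, mul_zero]

private theorem Th_surj (nd : ND H) : Function.Surjective (Th H (Module.finBasis Ω M)) := by
  refine (LinearMap.injective_iff_surjective_of_finrank_eq_finrank ?_).mp (Th_inj nd _)
  simp

/-- every semilinear functional comes from a vector -/
private theorem exists_rep (nd : ND H) (L : M →ₛₗ[frobenius Ω p] Ω) : ∃ x, ∀ y, H x y = L y := by
  obtain ⟨x, hx⟩ := Th_surj nd (fun i => L (Module.finBasis Ω M i))
  refine ⟨x, fun y => ?_⟩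
  rw [exp_right (Module.finBasis Ω M) (H x) y, exp_right (Module.finBasis Ω M) L y]
  refine Finset.sum_congr rfl fun i _ => ?_
  have : H x (Module.finBasis Ω M i) = L (Module.finBasis Ω M i) := congrFun hx i
  rw [this]

theorem exists_adj (nd : ND H) : ∃ φ : M →ₛₗ[iterateFrobenius Ω p 2] M, Adj H φ := by
  have hbij : Function.Bijective (Th H (Module.finBasis Ω M)) := ⟨Th_inj nd _, Th_surj nd⟩
  let e : M ≃ₗ[Ω] (Fin (Module.finrank Ω M) → Ω) := LinearEquiv.ofBijective _ hbij
  have he : ∀ v i, H (e.symm v) (Module.finBasis Ω M i) = v i := by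
    intro v i
    have h1 : e (e.symm v) = v := e.apply_symm_apply v
    exact congrFun h1 i
  let φ : M →ₛₗ[iterateFrobenius Ω p 2] M :=
    { toFun := fun y => e.symm fun i => H (Module.finBasis Ω M i) y ^ p
      map_add' := by
        intro y z
        rw [← map_add]
        congr 1
        funext i
        rw [map_add, add_pow_char, Pi.add_apply]
      map_smul' := by
        intro c y
        rw [← map_smul]
        congr 1
        funext i
        rw [LinearMap.map_smulₛₗ, frobenius_def, smul_eq_mul, Pi.smul_apply, smul_eq_mul,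
          iterateFrobenius_def, mul_pow, ← pow_mul, ← pow_two] }
  refine ⟨φ, fun x y => ?_⟩
  rw [exp_right (Module.finBasis Ω M) (H (φ y)) x, exp_left (Module.finBasis Ω M) x y,
    sum_pow_char]
  refine Finset.sum_congr rfl fun i _ => ?_
  rw [mul_pow]
  congr 1
  exact he _ i

theorem nd_right (nd : ND H) {y : M} (hy : ∀ x, H x y = 0) : y = 0 := by
  set b := Module.finBasis Ω M with hb
  rw [← b.sum_repr y]
  refine Finset.sum_eq_zero fun i _ => ?_
  obtain ⟨x, hx⟩ := Th_surj nd (Pi.single i 1)
  have h1 := hy x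
  rw [exp_right b (H x) y] at h1
  have h2 : ∀ j, H x (b j) = (Pi.single i 1 : Fin _ → Ω) j := fun j => congrFun hx j
  rw [Finset.sum_eq_single i] at h1
  · rw [h2 i, Pi.single_eq_same, mul_one] at h1
    rw [pow_eq_zero_iff (Nat.Prime.ne_zero Fact.out)] at h1
    rw [h1, zero_smul]
  · intro j _ hj
    rw [h2 j, Pi.single_eq_of_ne hj, mul_zero]
  · intro h
    exact absurd (Finset.mem_univ _) h

omit [FiniteDimensional Ω M] in
theorem adj_unique (nd : ND H) {φ ψ : M → M} (hφ : Adj H φ) (hψ : Adj H ψ) : φ = ψ := by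
  funext y
  rw [← sub_eq_zero]
  refine nd _ fun x => ?_
  rw [map_sub, LinearMap.sub_apply, hφ, hψ, sub_self]

theorem adj_inj (nd : ND H) {φ : M →ₛₗ[iterateFrobenius Ω p 2] M} (hφ : Adj H φ) :
    Function.Injective φ := by
  intro y z hyz
  rw [← sub_eq_zero]
  refine nd_right nd fun x => ?_
  have h1 : H x y ^ p = H x z ^ p := by rw [← hφ, ← hφ, hyz]
  rw [map_sub, sub_eq_zero]
  exact frobenius_inj Ω p h1

omit [FiniteDimensional Ω M] in
theorem adj_isom {φ : M → M} (hφ : Adj H φ) (x y : M) : H (φ x) (φ y) = H x y ^ (p ^ 2) := by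
  rw [hφ, hφ, ← pow_mul, ← pow_two]

omit [FiniteDimensional Ω M] in
theorem exists_ne [Infinite Ω] [Nontrivial M] (nd : ND H) : ∃ x : M, H x x ≠ 0 := by
  by_contra hcon
  push Not at hcon
  obtain ⟨x, hx⟩ := _root_.exists_ne (0 : M)
  refine hx (nd x fun y => ?_)
  have hp1 : p ≠ 1 := Nat.Prime.ne_one Fact.out
  have h1 : (Polynomial.C (H y x) * Polynomial.X + Polynomial.C (H x y) * Polynomial.X ^ p :
      Polynomial Ω) = 0 := by
    refine Polynomial.funext fun a => ?_
    have h2 := hcon (x + a • y)
    have e1 : H (x + a • y) = H x + a • H y := by rw [LinearMap.map_add, LinearMap.map_smul]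
    rw [e1, LinearMap.add_apply, LinearMap.smul_apply, LinearMap.map_add (H x),
      LinearMap.map_add (H y), LinearMap.map_smulₛₗ, LinearMap.map_smulₛₗ, hcon x, hcon y,
      frobenius_def] at h2
    simp only [smul_eq_mul, mul_zero, add_zero, zero_add] at h2
    simp only [Polynomial.eval_add, Polynomial.eval_mul, Polynomial.eval_C, Polynomial.eval_X,
      Polynomial.eval_pow, Polynomial.eval_zero]
    rw [← h2]
    ring
  have h3 := congrArg (fun q : Polynomial Ω => q.coeff p) h1
  simp only [Polynomial.coeff_add, Polynomial.coeff_C_mul, Polynomial.coeff_X_pow,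
    Polynomial.coeff_zero, if_true, mul_one] at h3
  rw [Polynomial.coeff_X_of_ne_one hp1, mul_zero, zero_add] at h3
  exact h3

/-- dimension of the left orthogonal complement -/
theorem finrank_lperp (nd : ND H) (W : Submodule Ω M) :
    Module.finrank Ω (lperp H W) + Module.finrank Ω W = Module.finrank Ω M := by
  set c := Module.finBasis Ω W with hc
  let Ψ : M →ₗ[Ω] (Fin (Module.finrank Ω W) → Ω) :=
    { toFun := fun x j => H x (c j)
      map_add' := by
        intro x y
        funext i
        rw [map_add, LinearMap.add_apply, Pi.add_apply]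
      map_smul' := by
        intro a x
        funext i
        rw [LinearMap.map_smul, LinearMap.smul_apply, RingHom.id_apply, Pi.smul_apply] }
  have hker : LinearMap.ker Ψ = lperp H W := by
    ext x
    rw [LinearMap.mem_ker]
    constructor
    · intro h w hw
      have h1 : ∀ j, H x (c j) = 0 := fun j => congrFun h j
      have h2 : H x w = ((H x).comp W.subtype : W →ₛₗ[frobenius Ω p] Ω) ⟨w, hw⟩ := rfl
      rw [h2, exp_right c]
      refine Finset.sum_eq_zero fun i _ => ?_
      have h3 : ((H x).comp W.subtype : W →ₛₗ[frobenius Ω p] Ω) (c i) = H x (c i) := rfl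
      rw [h3, h1, mul_zero]
    · intro h
      funext j
      exact h _ (c j).2
  have hsurj : Function.Surjective Ψ := by
    intro f
    obtain ⟨g, hg⟩ := LinearMap.exists_leftInverse_of_injective W.subtype W.ker_subtype
    let L : M →ₛₗ[frobenius Ω p] Ω :=
      { toFun := fun y => ∑ j, f j * (c.repr (g y) j) ^ p
        map_add' := by
          intro y z
          rw [← Finset.sum_add_distrib]
          refine Finset.sum_congr rfl fun j _ => ?_
          rw [map_add, map_add, Finsupp.add_apply, add_pow_char, mul_add]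
        map_smul' := by
          intro a y
          rw [Finset.smul_sum]
          refine Finset.sum_congr rfl fun j _ => ?_
          rw [map_smul, map_smul, Finsupp.smul_apply, smul_eq_mul, smul_eq_mul, mul_pow,
            frobenius_def]
          ring }
    obtain ⟨x, hx⟩ := exists_rep nd L
    refine ⟨x, ?_⟩
    funext j
    have h1 : Ψ x j = H x (c j) := rfl
    rw [h1, hx]
    have h2 : g (c j : M) = c j := by
      have := LinearMap.congr_fun hg (c j)
      simpa using this
    have h3 : L (c j : M) = ∑ i, f i * (c.repr (g (c j : M)) i) ^ p := rfl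
    rw [h3, h2, Finset.sum_eq_single j]
    · rw [Module.Basis.repr_self, Finsupp.single_eq_same, one_pow, mul_one]
    · intro i _ hi
      rw [Module.Basis.repr_self, Finsupp.single_eq_of_ne hi,
        zero_pow (Nat.Prime.ne_zero Fact.out), mul_zero]
    · intro h
      exact absurd (Finset.mem_univ _) h
  have h1 := LinearMap.finrank_range_add_finrank_ker Ψ
  rw [LinearMap.range_eq_top.mpr hsurj, finrank_top, hker, Module.finrank_fin_fun] at h1
  omega

end UPC
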