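import Mathlib
import Pool.Agent.UPC.Phi

/-!
# The isotropic vector (project UPC, module UPC-Iso)

`N = span e = {y | H y x₁ = 0}`. Put `w = φ x₁`. Then `φ (e j) - e j = c j • w`: the difference
`z` satisfies `H z (e i) = (H (e i) (e j)) ^ p - H (e j) (e i) = 0` and `H w (e i) =
(H (e i) x₁) ^ p = 0`, `H w x₁ = (H x₁ x₁) ^ p ≠ 0`, so for `c = H z x₁ / H w x₁` the vector
`z - c w` is orthogonal to `x₁` and all `e i`, which span `M` (dimension count), hence `0`.
For `i < d / 2` let `u i = e (2 i) + α e (2 i + 1)`: `H (u i) (u j) = 0` (`1 + α * α ^ p = 0`),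
`φ (u i) = u i + D i • w` (`α ^ (p ^ 2) = α`).
Let `m = d / 2`. If `m = 0` take `x = x₁` (`x₁ ≠ 0`). If `m ≥ 1`: for `1 ≤ t < m` choose `δ t i`
with `δ t i ^ (p ^ 2) ^ t = D i` (perfect field); the `m - 1` equations `∑ i, a i * δ t i = 0` in
`m` unknowns have a solution `a ≠ 0`
(`Matrix.exists_mulVec_eq_zero_iff`-like or `LinearMap.ker_ne_bot_of_finrank_lt`), and then
`∑ i, a i ^ (p ^ 2) ^ t * D i = 0`. `x = ∑ a i • u i`; by induction on `t < m`,
`φ^[t] x = ∑ i, a i ^ (p ^ 2) ^ t • u i`. So `H x (φ^[t] x) = 0`; `x ≠ 0` because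
`H x (e (2 i)) = a i`.
-/

namespace UPC

variable {Ω : Type*} [Field Ω] {p : ℕ} [Fact p.Prime] [CharP Ω p]
variable {M : Type*} [AddCommGroup M] [Module Ω M] [FiniteDimensional Ω M]

omit [FiniteDimensional Ω M] in
private theorem H_semi (H : M →ₗ[Ω] M →ₛₗ[frobenius Ω p] Ω) (x y : M) (a : Ω) :
    H x (a • y) = a ^ p * H x y := by
  rw [map_smulₛₗ, frobenius_def, smul_eq_mul]

omit [FiniteDimensional Ω M] in
private theorem H_smul (H : M →ₗ[Ω] M →ₛₗ[frobenius Ω p] Ω) (x y : M) (a : Ω) :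
    H (a • x) y = a * H x y := by
  rw [map_smul, LinearMap.smul_apply, smul_eq_mul]

omit [FiniteDimensional Ω M] in
private theorem H_add (H : M →ₗ[Ω] M →ₛₗ[frobenius Ω p] Ω) (x x' y : M) :
    H (x + x') y = H x y + H x' y := by
  rw [map_add, LinearMap.add_apply]

omit [FiniteDimensional Ω M] in
private theorem H_sub (H : M →ₗ[Ω] M →ₛₗ[frobenius Ω p] Ω) (x x' y : M) :
    H (x - x') y = H x y - H x' y := by
  rw [map_sub, LinearMap.sub_apply]

omit [FiniteDimensional Ω M] in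
private theorem H_sum_left (H : M →ₗ[Ω] M →ₛₗ[frobenius Ω p] Ω) {m : ℕ} (a : Fin m → Ω)
    (u : Fin m → M) (y : M) :
    H (∑ i, a i • u i) y = ∑ i, a i * H (u i) y := by
  rw [map_sum, LinearMap.sum_apply]
  exact Finset.sum_congr rfl fun i _ => H_smul H (u i) y (a i)

omit [FiniteDimensional Ω M] in
private theorem H_sum_right (H : M →ₗ[Ω] M →ₛₗ[frobenius Ω p] Ω) {m : ℕ} (a : Fin m → Ω)
    (u : Fin m → M) (x : M) :
    H x (∑ i, a i • u i) = ∑ i, a i ^ p * H x (u i) := by
  rw [map_sum]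
  exact Finset.sum_congr rfl fun i _ => H_semi H x (u i) (a i)

omit [FiniteDimensional Ω M] in
private theorem phi_semi (φ : M →ₛₗ[iterateFrobenius Ω p 2] M) (y : M) (a : Ω) :
    φ (a • y) = a ^ (p ^ 2) • φ y := by
  rw [map_smulₛₗ, iterateFrobenius_def]

private theorem span_top {H : M →ₗ[Ω] M →ₛₗ[frobenius Ω p] Ω} {x₁ : M} (hx₁ : H x₁ x₁ ≠ 0)
    {d : ℕ} (e : Fin d → M) (hd : Module.finrank Ω M = d + 1) (he0 : ∀ i, H (e i) x₁ = 0)
    (he : ∀ i j, H (e i) (e j) = if i = j then 1 else 0) :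
    Submodule.span Ω (Set.range fun o : Option (Fin d) => o.elim x₁ e) = ⊤ := by
  have hli : LinearIndependent Ω (fun o : Option (Fin d) => o.elim x₁ e) := by
    rw [Fintype.linearIndependent_iff]
    intro g hg
    rw [Fintype.sum_option] at hg
    simp only [Option.elim] at hg
    have h1 : g none = 0 := by
      have := congrArg (fun v => H v x₁) hg
      simp only [map_add, map_sum, map_smul, LinearMap.add_apply, LinearMap.sum_apply,
        LinearMap.smul_apply, he0, smul_eq_mul, mul_zero, Finset.sum_const_zero, add_zero,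
        map_zero, LinearMap.zero_apply] at this
      exact (mul_eq_zero.1 this).resolve_right hx₁
    intro o
    cases o with
    | none => exact h1
    | some j =>
      rw [h1, zero_smul, zero_add] at hg
      have := congrArg (fun v => H v (e j)) hg
      simp only [map_sum, map_smul, LinearMap.sum_apply,
        LinearMap.smul_apply, he, smul_eq_mul, map_zero, LinearMap.zero_apply, mul_ite, mul_one,
        mul_zero, Finset.sum_ite_eq', Finset.mem_univ, if_true] at this
      exact this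
  refine hli.span_eq_top_of_card_eq_finrank' ?_
  rw [Fintype.card_option, Fintype.card_fin, hd]

private theorem eq_zero_of_orth {H : M →ₗ[Ω] M →ₛₗ[frobenius Ω p] Ω} (nd : ND H) {x₁ : M}
    (hx₁ : H x₁ x₁ ≠ 0)
    {d : ℕ} (e : Fin d → M) (hd : Module.finrank Ω M = d + 1) (he0 : ∀ i, H (e i) x₁ = 0)
    (he : ∀ i j, H (e i) (e j) = if i = j then 1 else 0) {z : M} (h1 : H z x₁ = 0)
    (h2 : ∀ i, H z (e i) = 0) : z = 0 := by
  refine nd z fun y => ?_
  have hy : y ∈ Submodule.span Ω (Set.range fun o : Option (Fin d) => o.elim x₁ e) := by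
    rw [span_top hx₁ e hd he0 he]
    exact Submodule.mem_top
  induction hy using Submodule.span_induction with
  | mem x hx =>
    obtain ⟨o, rfl⟩ := hx
    cases o with
    | none => exact h1
    | some j => exact h2 j
  | zero => exact map_zero _
  | add x y _ _ hx hy => rw [map_add, hx, hy, add_zero]
  | smul a x _ hx => rw [H_semi, hx, mul_zero]

private theorem exists_c {H : M →ₗ[Ω] M →ₛₗ[frobenius Ω p] Ω} (nd : ND H)
    (φ : M →ₛₗ[iterateFrobenius Ω p 2] M) (hφ : Adj H φ) {x₁ : M} (hx₁ : H x₁ x₁ ≠ 0) {d : ℕ}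
    (e : Fin d → M) (hd : Module.finrank Ω M = d + 1) (he0 : ∀ i, H (e i) x₁ = 0)
    (he : ∀ i j, H (e i) (e j) = if i = j then 1 else 0) (j : Fin d) :
    ∃ c : Ω, φ (e j) = e j + c • φ x₁ := by
  have hp : p ≠ 0 := (Fact.out : p.Prime).ne_zero
  have hw1 : H (φ x₁) x₁ ≠ 0 := by
    rw [hφ]
    exact pow_ne_zero _ hx₁
  refine ⟨H (φ (e j) - e j) x₁ / H (φ x₁) x₁, ?_⟩
  have h0 : φ (e j) - e j - (H (φ (e j) - e j) x₁ / H (φ x₁) x₁) • φ x₁ = 0 := by
    refine eq_zero_of_orth nd hx₁ e hd he0 he ?_ ?_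
    · rw [H_sub, H_smul, div_mul_cancel₀ _ hw1, sub_self]
    · intro i
      have h2 : H (φ x₁) (e i) = 0 := by rw [hφ, he0, zero_pow hp]
      rw [H_sub, H_smul, h2, mul_zero, sub_zero, H_sub, hφ, he, he]
      by_cases h : i = j
      · rw [if_pos h, if_pos h.symm, one_pow, sub_self]
      · rw [if_neg h, if_neg (Ne.symm h), zero_pow hp, sub_self]
  rw [sub_sub, sub_eq_zero] at h0
  exact h0

theorem exists_iso (perf : ∀ a : Ω, ∃ b : Ω, b ^ p = a) {α : Ω} (hα : α ^ (p + 1) = -1)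
    (hα2 : α ^ (p ^ 2) = α) {H : M →ₗ[Ω] M →ₛₗ[frobenius Ω p] Ω} (nd : ND H)
    (φ : M →ₛₗ[iterateFrobenius Ω p 2] M) (hφ : Adj H φ) {x₁ : M} (hx₁ : H x₁ x₁ ≠ 0) {d : ℕ}
    (e : Fin d → M) (hd : Module.finrank Ω M = d + 1) (he0 : ∀ i, H (e i) x₁ = 0)
    (he : ∀ i j, H (e i) (e j) = if i = j then 1 else 0) :
    ∃ x : M, x ≠ 0 ∧ ∀ t : ℕ, t < d / 2 → H x (φ^[t] x) = 0 := by
  classical
  have hp : p ≠ 0 := (Fact.out : p.Prime).ne_zero
  choose c hc using exists_c nd φ hφ hx₁ e hd he0 he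
  rcases Nat.eq_zero_or_pos (d / 2) with hm | hm
  · refine ⟨x₁, ?_, fun t ht => absurd ht (by omega)⟩
    rintro rfl
    exact hx₁ (by rw [map_zero])
  -- index maps
  have b0 : ∀ i : Fin (d / 2), 2 * (i : ℕ) < d := fun i => by have := i.2; omega
  have b1 : ∀ i : Fin (d / 2), 2 * (i : ℕ) + 1 < d := fun i => by have := i.2; omega
  let f0 : Fin (d / 2) → Fin d := fun i => ⟨2 * i, b0 i⟩
  let f1 : Fin (d / 2) → Fin d := fun i => ⟨2 * i + 1, b1 i⟩
  have h00 : ∀ i j, H (e (f0 i)) (e (f0 j)) = if i = j then 1 else 0 := by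
    intro i j
    rw [he]
    refine if_congr ?_ rfl rfl
    constructor
    · intro h
      have h' := congrArg Fin.val h
      simp only [f0] at h'
      exact Fin.ext (by omega)
    · intro h
      rw [h]
  have h11 : ∀ i j, H (e (f1 i)) (e (f1 j)) = if i = j then 1 else 0 := by
    intro i j
    rw [he]
    refine if_congr ?_ rfl rfl
    constructor
    · intro h
      have h' := congrArg Fin.val h
      simp only [f1] at h'
      exact Fin.ext (by omega)
    · intro h
      rw [h]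
  have h01 : ∀ i j, H (e (f0 i)) (e (f1 j)) = 0 := by
    intro i j
    rw [he]
    refine if_neg fun h => ?_
    have h' := congrArg Fin.val h
    simp only [f0, f1] at h'
    omega
  have h10 : ∀ i j, H (e (f1 i)) (e (f0 j)) = 0 := by
    intro i j
    rw [he]
    refine if_neg fun h => ?_
    have h' := congrArg Fin.val h
    simp only [f0, f1] at h'
    omega
  let u : Fin (d / 2) → M := fun i => e (f0 i) + α • e (f1 i)
  let D : Fin (d / 2) → Ω := fun i => c (f0 i) + α * c (f1 i)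
  have hu : ∀ i j, H (u i) (u j) = 0 := by
    intro i j
    simp only [u]
    rw [H_add, map_add, map_add, H_semi, H_smul, H_semi, H_smul, h00, h01, h10, h11]
    by_cases h : i = j
    · rw [if_pos h]
      have : α * α ^ p = -1 := by rw [← hα, pow_succ, mul_comm]
      linear_combination this
    · rw [if_neg h]
      ring
  have hφu : ∀ i, φ (u i) = u i + D i • φ x₁ := by
    intro i
    simp only [u, D]
    rw [map_add, phi_semi, hα2, hc, hc, add_smul, smul_add, mul_smul]
    abel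
  -- perfect field
  have perf2 : ∀ (t : ℕ) (a : Ω), ∃ b : Ω, b ^ (p ^ t) = a := by
    intro t
    induction t with
    | zero => exact fun a => ⟨a, by rw [pow_zero, pow_one]⟩
    | succ t ih =>
      intro a
      obtain ⟨b, hb⟩ := ih a
      obtain ⟨b', hb'⟩ := perf b
      exact ⟨b', by rw [pow_succ', pow_mul, hb', hb]⟩
  have perf3 : ∀ (t : ℕ) (i : Fin (d / 2)), ∃ b : Ω, b ^ ((p ^ 2) ^ t) = D i := by
    intro t i
    obtain ⟨b, hb⟩ := perf2 (2 * t) (D i)
    exact ⟨b, by rw [← pow_mul, hb]⟩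
  choose δ hδ using perf3
  -- linear system
  let A : (Fin (d / 2) → Ω) →ₗ[Ω] (Fin (d / 2 - 1) → Ω) :=
    LinearMap.pi fun t => ∑ i, (δ ((t : ℕ) + 1) i) • LinearMap.proj i
  have hA : LinearMap.ker A ≠ ⊥ := by
    apply LinearMap.ker_ne_bot_of_finrank_lt
    rw [Module.finrank_fintype_fun_eq_card, Module.finrank_fintype_fun_eq_card, Fintype.card_fin,
      Fintype.card_fin]
    omega
  obtain ⟨a, haA, ha0⟩ := (Submodule.ne_bot_iff _).1 hA
  have hsum : ∀ t : ℕ, t < d / 2 - 1 → ∑ i, δ (t + 1) i * a i = 0 := by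
    intro t ht
    have h := congrFun (LinearMap.mem_ker.1 haA) ⟨t, ht⟩
    simpa [A, LinearMap.pi_apply, LinearMap.sum_apply] using h
  have hsum2 : ∀ t : ℕ, 1 ≤ t → t < d / 2 → ∑ i, a i ^ ((p ^ 2) ^ t) * D i = 0 := by
    intro t h1 h2
    obtain ⟨s, rfl⟩ : ∃ s, t = s + 1 := ⟨t - 1, by omega⟩
    have h := hsum s (by omega)
    have hq : (p ^ 2) ^ (s + 1) = p ^ (2 * (s + 1)) := by rw [← pow_mul]
    calc ∑ i, a i ^ ((p ^ 2) ^ (s + 1)) * D i
        = ∑ i, (δ (s + 1) i * a i) ^ ((p ^ 2) ^ (s + 1)) := by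
          refine Finset.sum_congr rfl fun i _ => ?_
          rw [mul_pow, hδ, mul_comm]
      _ = (∑ i, δ (s + 1) i * a i) ^ ((p ^ 2) ^ (s + 1)) := by
          rw [hq, sum_pow_char_pow]
      _ = 0 := by
          rw [h, zero_pow (pow_ne_zero _ (pow_ne_zero _ hp))]
  have hit : ∀ t : ℕ, t < d / 2 → φ^[t] (∑ i, a i • u i) = ∑ i, a i ^ ((p ^ 2) ^ t) • u i := by
    intro t
    induction t with
    | zero => intro _; simp
    | succ t ih =>
      intro ht
      rw [Function.iterate_succ_apply', ih (by omega), map_sum]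
      have h1 : ∀ i, φ (a i ^ ((p ^ 2) ^ t) • u i)
          = a i ^ ((p ^ 2) ^ (t + 1)) • u i + (a i ^ ((p ^ 2) ^ (t + 1)) * D i) • φ x₁ := by
        intro i
        rw [phi_semi, hφu, smul_add, smul_smul, ← pow_mul, ← pow_succ]
      rw [Finset.sum_congr rfl fun i _ => h1 i, Finset.sum_add_distrib, ← Finset.sum_smul,
        hsum2 (t + 1) (by omega) ht, zero_smul, add_zero]
  refine ⟨∑ i, a i • u i, ?_, ?_⟩
  · intro h0
    apply ha0
    funext i
    have h := congrArg (fun v => H v (e (f0 i))) h0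
    simp only [map_zero, LinearMap.zero_apply] at h
    rw [H_sum_left] at h
    have h2 : ∀ j, H (u j) (e (f0 i)) = if j = i then 1 else 0 := by
      intro j
      simp only [u]
      rw [H_add, H_smul, h00, h10, mul_zero, add_zero]
    simp only [h2, mul_ite, mul_one, mul_zero, Finset.sum_ite_eq', Finset.mem_univ, if_true] at h
    exact h
  · intro t ht
    rw [hit t ht, H_sum_left]
    refine Finset.sum_eq_zero fun i _ => ?_
    rw [H_sum_right]
    rw [Finset.sum_eq_zero fun j _ => by rw [hu, mul_zero], mul_zero]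

end UPC
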