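import Mathlib
import Pool.Agent.UPC.Clo
import Pool.Agent.UPC.CycFix
import Pool.Agent.UPC.Phi

/-!
# Counting the parameters of a cyclic module (project UPC, module UPC-Par)

`Q = p ^ 2`. `m = 0` is trivial; let `m ≥ 1`. `g j = H x (φ^[j] x)`, `g j = 0` for `j < q`.
Gram matrix: `H (φ^[i] x) (φ^[j] x) = g (j - i) ^ Q ^ i` for `i ≤ j` (`adj_isom`), and
`= (g (i - j - 1) ^ p) ^ Q ^ j` for `j < i` (`H (φ^[i - j] x) x = (H x (φ^[i - j - 1] x)) ^ p`).
(1) Scaling: some `g j₀ ≠ 0`, `j₀ < m` (otherwise `H x (φ^[j] x) = 0` for all `j`, `x = 0`, but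
`m ≥ 1` and `li`); choose `l ≠ 0` with `l ^ (1 + p * Q ^ j₀) * g j₀ = 1` (`AC.scale`) and replace
`x` by `l • x` (`φ^[j] (l • x) = l ^ Q ^ j • φ^[j] x`; still linearly independent). So we may
assume `g j₀ = 1` for some `j₀ ≥ q`.
(2) The set `S = {g j | q ≤ j < m, j ≠ j₀}` has at most `m - q - 1 ≤ r` elements; `F` the
algebraically closed subfield from `AC`, all `g j` (`j < m`) are in `F`.
(3) `φ^[m] x = ∑ c i • φ^[i] x` (`c i : Ω`, the family is a basis). For `j < m`:
`H (φ^[m] x) (φ^[j] x) = (g (m - j - 1) ^ p) ^ Q ^ j ∈ F` and `= ∑ i, c i * G i j` with the Gram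
matrix `G` over `F`, which is invertible (`ND`). So `c i ∈ F` (apply the inverse matrix, which has
entries in `F`; e.g. `c = b ᵥ* G⁻¹`, `G⁻¹` computed over `F`, `RingHom.map_det`).
(4) `cyc_fix`.
-/

namespace UPC

variable {Ω : Type*} [Field Ω] {p : ℕ} [Fact p.Prime] [CharP Ω p]
variable {M : Type*} [AddCommGroup M] [Module Ω M] [FiniteDimensional Ω M]

omit [FiniteDimensional Ω M] in
private theorem par_isom {H : M →ₗ[Ω] M →ₛₗ[frobenius Ω p] Ω} {φ : M → M} (hφ : Adj H φ)
    (k : ℕ) (a b : M) : H (φ^[k] a) (φ^[k] b) = H a b ^ (p ^ 2) ^ k := by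
  induction k with
  | zero => simp
  | succ k ih =>
    rw [Function.iterate_succ_apply', Function.iterate_succ_apply', adj_isom hφ, ih, ← pow_mul,
      ← pow_succ]

private theorem par_aux {r : ℕ} (h : AC r Ω) {H : M →ₗ[Ω] M →ₛₗ[frobenius Ω p] Ω} (nd : ND H)
    (φ : M →ₛₗ[iterateFrobenius Ω p 2] M) (hφ : Adj H φ) {m q : ℕ}
    {x : M} (li : LinearIndependent Ω (fun j : Fin m => φ^[(j : ℕ)] x))
    (sp : Submodule.span Ω (Set.range fun j : Fin m => φ^[(j : ℕ)] x) = ⊤)
    (hg : ∀ j : ℕ, j < q → H x (φ^[j] x) = 0) (hrq : m ≤ r + q + 1) {j₀ : ℕ} (hj : j₀ < m)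
    (hj₀ : H x (φ^[j₀] x) = 1) : Fx Ω φ := by
  classical
  have hqj : q ≤ j₀ := by
    by_contra hlt
    rw [hg j₀ (not_le.mp hlt)] at hj₀
    exact zero_ne_one hj₀
  obtain ⟨F, hF, hFS⟩ := h (((Finset.Ico q m).erase j₀).image fun j => H x (φ^[j] x)) (by
    refine Finset.card_image_le.trans ?_
    rw [Finset.card_erase_of_mem (Finset.mem_Ico.mpr ⟨hqj, hj⟩), Nat.card_Ico]
    omega)
  have hgF : ∀ j < m, H x (φ^[j] x) ∈ F := by
    intro j hjm
    by_cases h1 : j < q
    · rw [hg j h1]; exact F.zero_mem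
    · by_cases h2 : j = j₀
      · rw [h2, hj₀]; exact F.one_mem
      · exact hFS _ (Finset.mem_image_of_mem _ (Finset.mem_erase.mpr
          ⟨h2, Finset.mem_Ico.mpr ⟨not_lt.mp h1, hjm⟩⟩))
  have hGF : ∀ i j : ℕ, i ≤ m → j < m → H (φ^[i] x) (φ^[j] x) ∈ F := by
    intro i j hi hjm
    rcases le_or_gt i j with hij | hij
    · obtain ⟨d, rfl⟩ := Nat.exists_eq_add_of_le hij
      rw [Function.iterate_add_apply, par_isom hφ]
      exact F.pow_mem (hgF d (by omega)) _
    · obtain ⟨d, rfl⟩ := Nat.exists_eq_add_of_lt hij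
      have h1 : φ^[j + d + 1] x = φ^[j] (φ (φ^[d] x)) := by
        rw [show j + d + 1 = j + (d + 1) from by omega, Function.iterate_add_apply,
          Function.iterate_succ_apply']
      rw [h1, par_isom hφ, hφ]
      exact F.pow_mem (F.pow_mem (hgF d (by omega)) _) _
  -- vanishing on the family
  have hvan : ∀ d : M, (∀ j : Fin m, H d (φ^[(j : ℕ)] x) = 0) → d = 0 := by
    intro d hd
    apply nd
    intro y
    have hy : y ∈ Submodule.span Ω (Set.range fun j : Fin m => φ^[(j : ℕ)] x) := by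
      rw [sp]; trivial
    induction hy using Submodule.span_induction with
    | mem y hy =>
      obtain ⟨j, rfl⟩ := hy
      exact hd j
    | zero => exact map_zero _
    | add a b _ _ ha hb => rw [map_add, ha, hb, add_zero]
    | smul c a _ ha => rw [LinearMap.map_smulₛₗ, ha, smul_zero]
  have hsum : ∀ (v : Fin m → Ω) (y : M), H (∑ i, v i • φ^[(i : ℕ)] x) y =
      ∑ i, v i * H (φ^[(i : ℕ)] x) y := by
    intro v y
    rw [map_sum, LinearMap.sum_apply]
    apply Finset.sum_congr rfl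
    intro i _
    rw [map_smul, LinearMap.smul_apply, smul_eq_mul]
  set G' : Matrix (Fin m) (Fin m) F := Matrix.of fun i j =>
    ⟨H (φ^[(i : ℕ)] x) (φ^[(j : ℕ)] x), hGF i j i.2.le j.2⟩ with hG'
  set b' : Fin m → F := fun j => ⟨H (φ^[m] x) (φ^[(j : ℕ)] x), hGF m j le_rfl j.2⟩ with hb'
  have hdet : G'.det ≠ 0 := by
    intro h0
    obtain ⟨v, hv, hv0⟩ := Matrix.exists_vecMul_eq_zero_iff.mpr h0
    apply hv
    have h1 : ∑ i, ((v i : F) : Ω) • φ^[(i : ℕ)] x = 0 := by
      apply hvan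
      intro j
      rw [hsum]
      have h2 := congrFun hv0 j
      rw [Matrix.vecMul, dotProduct] at h2
      have h3 := congrArg (fun a : F => (a : Ω)) h2
      simp only [hG', Matrix.of_apply, Pi.zero_apply, ZeroMemClass.coe_zero] at h3
      rw [← h3]
      push_cast
      rfl
    have h2 := Fintype.linearIndependent_iff.mp li (fun i => ((v i : F) : Ω)) h1
    funext i
    exact Subtype.ext (h2 i)
  set c' : Fin m → F := Matrix.vecMul b' G'⁻¹ with hc'
  have hcG : Matrix.vecMul c' G' = b' := by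
    rw [hc', Matrix.vecMul_vecMul, Matrix.nonsing_inv_mul _ (Ne.isUnit hdet), Matrix.vecMul_one]
  refine cyc_fix (Q := p ^ 2) (Nat.one_lt_pow two_ne_zero (Fact.out : p.Prime).one_lt)
    (fun a => iterateFrobenius_def _ _ a) φ (adj_inj nd hφ) F hF x li sp c' ?_
  rw [← sub_eq_zero]
  apply hvan
  intro j
  rw [map_sub, LinearMap.sub_apply, hsum, sub_eq_zero]
  have h2 := congrFun hcG j
  rw [Matrix.vecMul, dotProduct] at h2
  have h3 := congrArg (fun a : F => (a : Ω)) h2
  simp only [hG', hb', Matrix.of_apply] at h3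
  rw [← h3]
  push_cast
  rfl

theorem par {r : ℕ} (h : AC r Ω) (hr : 1 ≤ r) {H : M →ₗ[Ω] M →ₛₗ[frobenius Ω p] Ω} (nd : ND H)
    (φ : M →ₛₗ[iterateFrobenius Ω p 2] M) (hφ : Adj H φ) {m q : ℕ}
    (hm : Module.finrank Ω M = m) {x : M}
    (li : LinearIndependent Ω (fun j : Fin m => φ^[(j : ℕ)] x))
    (hg : ∀ j : ℕ, j < q → H x (φ^[j] x) = 0) (hrq : m ≤ r + q + 1) : Fx Ω φ := by
  classical
  rcases Nat.eq_zero_or_pos m with hm0 | hm0
  · subst hm0
    have : Subsingleton M := Module.finrank_zero_iff.mp hm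
    exact Subsingleton.elim _ _
  have hspan : ∀ y : M, LinearIndependent Ω (fun j : Fin m => φ^[(j : ℕ)] y) →
      Submodule.span Ω (Set.range fun j : Fin m => φ^[(j : ℕ)] y) = ⊤ := by
    intro y hy
    have : Nonempty (Fin m) := ⟨⟨0, hm0⟩⟩
    exact hy.span_eq_top_of_card_eq_finrank (by rw [Fintype.card_fin, hm])
  have sp := hspan x li
  have hex : ∃ j < m, H x (φ^[j] x) ≠ 0 := by
    by_contra hcon
    push Not at hcon
    have h0 : x = 0 := by
      apply nd
      intro y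
      have hy : y ∈ Submodule.span Ω (Set.range fun j : Fin m => φ^[(j : ℕ)] x) := by
        rw [sp]; trivial
      induction hy using Submodule.span_induction with
      | mem y hy =>
        obtain ⟨j, rfl⟩ := hy
        exact hcon j j.2
      | zero => exact map_zero _
      | add a b _ _ ha hb => rw [map_add, ha, hb, add_zero]
      | smul c a _ ha => rw [LinearMap.map_smulₛₗ, ha, smul_zero]
    exact (li.ne_zero (⟨0, hm0⟩ : Fin m)) h0
  obtain ⟨j₀, hj, hj₀⟩ := hex
  obtain ⟨l, hl, hl1⟩ := h.scale hr (N := 1 + p * (p ^ 2) ^ j₀) (by omega) hj₀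
  have hit : ∀ j : ℕ, φ^[j] (l • x) = l ^ (p ^ 2) ^ j • φ^[j] x := by
    intro j
    induction j with
    | zero => simp
    | succ j ih =>
      rw [Function.iterate_succ_apply', ih, LinearMap.map_smulₛₗ, iterateFrobenius_def,
        Function.iterate_succ_apply', ← pow_mul, ← pow_succ]
  have hH : ∀ j : ℕ, H (l • x) (φ^[j] (l • x)) = l ^ (1 + p * (p ^ 2) ^ j) * H x (φ^[j] x) := by
    intro j
    rw [hit, LinearMap.map_smulₛₗ, map_smul, LinearMap.smul_apply, frobenius_def, smul_eq_mul,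
      smul_eq_mul, ← pow_mul, pow_add, pow_one, mul_comm ((p ^ 2) ^ j) p]
    ring
  have li' : LinearIndependent Ω (fun j : Fin m => φ^[(j : ℕ)] (l • x)) := by
    have h1 := li.units_smul (fun j : Fin m => Units.mk0 (l ^ (p ^ 2) ^ (j : ℕ)) (pow_ne_zero _ hl))
    have h2 : ((fun j : Fin m => Units.mk0 (l ^ (p ^ 2) ^ (j : ℕ)) (pow_ne_zero _ hl)) •
        fun j : Fin m => φ^[(j : ℕ)] x) = fun j : Fin m => φ^[(j : ℕ)] (l • x) := by
      funext j
      rw [hit, Pi.smul_apply', Units.smul_def, Units.val_mk0]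
    rwa [h2] at h1
  exact par_aux h nd φ hφ li' (hspan _ li') (fun j hjq => by rw [hH, hg j hjq, mul_zero]) hrq hj
    (by rw [hH, hl1])

end UPC
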