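import Mathlib
import Pool.Agent.UPC.Cyc
import Pool.Agent.UPC.Phi

/-!
# Orthogonal complements of stable subspaces (project UPC, module UPC-Perp)

`perp_stable`: `y ∈ lperp H W`, `w ∈ W`; `w = φ w'` with `w' ∈ W` (`surj_of_inj`, `adj_inj`;
`a ↦ a ^ (p ^ 2)` is surjective), `H (φ y) (φ w') = H y w' ^ (p ^ 2) = 0` (`adj_isom`).
`perp_perp`: `P ≤ lperp H (lperp H P)`: for `v ∈ P` fixed and `z ∈ lperp H P`,
`H v z = H (φ v) z = (H z v) ^ p = 0`, and the fixed vectors of `P` span `P`; equal dimensions by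
`finrank_lperp` twice.
-/

namespace UPC

variable {Ω : Type*} [Field Ω] {p : ℕ} [Fact p.Prime] [CharP Ω p]
variable {M : Type*} [AddCommGroup M] [Module Ω M] [FiniteDimensional Ω M]
variable {H : M →ₗ[Ω] M →ₛₗ[frobenius Ω p] Ω}

theorem perp_stable (perf : ∀ a : Ω, ∃ b : Ω, b ^ (p ^ 2) = a) (nd : ND H)
    (φ : M →ₛₗ[iterateFrobenius Ω p 2] M) (hφ : Adj H φ) {W : Submodule Ω M}
    (hW : ∀ y ∈ W, φ y ∈ W) {y : M} (hy : y ∈ lperp H W) : φ y ∈ lperp H W := by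
  have hp : p ^ 2 ≠ 0 := pow_ne_zero 2 (Fact.out : p.Prime).ne_zero
  intro w hw
  have hσ : Function.Surjective (iterateFrobenius Ω p 2) := by
    intro a
    obtain ⟨b, hb⟩ := perf a
    exact ⟨b, by rw [iterateFrobenius_def, hb]⟩
  obtain ⟨w', hw', rfl⟩ := surj_of_inj φ (adj_inj nd hφ) hσ W hW hw
  rw [adj_isom hφ, hy w' hw', zero_pow hp]

theorem perp_perp (nd : ND H) (φ : M →ₛₗ[iterateFrobenius Ω p 2] M) (hφ : Adj H φ)
    {P : Submodule Ω M} (h1 : P ≤ Submodule.span Ω {x : M | x ∈ P ∧ φ x = x}) :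
    lperp H (lperp H P) = P := by
  have hp : p ≠ 0 := (Fact.out : p.Prime).ne_zero
  symm
  apply Submodule.eq_of_le_of_finrank_eq
  · refine h1.trans (Submodule.span_le.2 ?_)
    rintro v ⟨hv, hφv⟩ z hz
    rw [← hφv, hφ z v, hz v hv, zero_pow hp]
  · have h2 := finrank_lperp nd P
    have h3 := finrank_lperp nd (lperp H P)
    omega

end UPC
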