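import Mathlib
import Pool.Agent.UPC.Clo
import Pool.Agent.UPC.ExtFix
import Pool.Agent.UPC.Perp

/-!
# A nondegenerate stable proper subspace (project UPC, module UPC-StabA)

`W' = lperp H W` has dimension `dim M - dim W` (`finrank_lperp`), so `M = W ⊕ W'`, and both have
dimension smaller than `dim M`. `W'` is stable (`perp_stable`, `AC.pow_root`). `res H W` is
nondegenerate: `w ∈ W`, `H w W = 0` means `w ∈ W ⊓ W'`. `res H W'` is nondegenerate: `y ∈ W'`,
`H y W' = 0` and `H y W = 0`, so `H y M = 0`. The restrictions of `φ` to `W` and `W'`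
(`LinearMap.restrict`-like for semilinear maps: `LinearMap.codRestrict _ (φ.domRestrict W)`) are
adjoined to `res H W`, `res H W'`, so `IH` applies; `fx_sub`.
-/

namespace UPC

variable {Ω : Type*} [Field Ω] {p : ℕ} [Fact p.Prime] [CharP Ω p]
variable {M : Type*} [AddCommGroup M] [Module Ω M] [FiniteDimensional Ω M]

theorem stabA {r : ℕ} (h : AC r Ω) (hr : 1 ≤ r) (H : M →ₗ[Ω] M →ₛₗ[frobenius Ω p] Ω)
    (nd : ND H) (φ : M →ₛₗ[iterateFrobenius Ω p 2] M) (hφ : Adj H φ)
    (IH : ∀ N : Submodule Ω M, Module.finrank Ω N < Module.finrank Ω M → ND (res H N) →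
      ∀ ψ : N →ₛₗ[iterateFrobenius Ω p 2] N, Adj (res H N) ψ → Fx Ω ψ)
    (W : Submodule Ω M) (hW : ∀ y ∈ W, φ y ∈ W) (h0 : W ≠ ⊥) (h1 : W ≠ ⊤)
    (hb : W ⊓ lperp H W = ⊥) : Fx Ω φ := by
  classical
  have hpp : 1 ≤ p ^ 2 := Nat.one_le_pow _ _ (Fact.out : p.Prime).pos
  have hdim := finrank_lperp nd W
  have hWpos : 0 < Module.finrank Ω W := by
    rw [Module.finrank_pos_iff]
    exact (Submodule.nontrivial_iff_ne_bot).mpr h0
  have hWlt : Module.finrank Ω W < Module.finrank Ω M := Submodule.finrank_lt h1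
  have hsup : W ⊔ lperp H W = ⊤ := by
    apply Submodule.eq_top_of_finrank_eq
    have h3 := Submodule.finrank_sup_add_finrank_inf_eq W (lperp H W)
    rw [hb, finrank_bot] at h3
    omega
  have hstab : ∀ y ∈ lperp H W, φ y ∈ lperp H W := fun y hy =>
    perp_stable (fun a => h.pow_root hr hpp a) nd φ hφ hW hy
  -- an element is zero if it is orthogonal to W and to the complement
  have hzero : ∀ y : M, (∀ w ∈ W, H y w = 0) → (∀ w ∈ lperp H W, H y w = 0) → y = 0 := by
    intro y hy1 hy2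
    apply nd
    intro x
    have hx : x ∈ W ⊔ lperp H W := by
      rw [hsup]
      exact Submodule.mem_top
    obtain ⟨a, ha, c, hc, rfl⟩ := Submodule.mem_sup.mp hx
    rw [map_add, hy1 a ha, hy2 c hc, add_zero]
  have hndW : ND (res H W) := by
    intro w hw
    have h3 : (w : M) ∈ W ⊓ lperp H W := by
      refine ⟨w.2, ?_⟩
      intro u hu
      exact hw ⟨u, hu⟩
    rw [hb, Submodule.mem_bot] at h3
    exact Subtype.ext h3
  have hndP : ND (res H (lperp H W)) := by
    intro y hy
    apply Subtype.ext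
    apply hzero
    · exact fun w hw => y.2 w hw
    · exact fun w hw => hy ⟨w, hw⟩
  let ψ1 : W →ₛₗ[iterateFrobenius Ω p 2] W :=
    { toFun := fun w => ⟨φ w, hW w w.2⟩
      map_add' := fun x y => Subtype.ext (by simp)
      map_smul' := fun c x => Subtype.ext (by simp) }
  let ψ2 : lperp H W →ₛₗ[iterateFrobenius Ω p 2] lperp H W :=
    { toFun := fun w => ⟨φ w, hstab w w.2⟩
      map_add' := fun x y => Subtype.ext (by simp)
      map_smul' := fun c x => Subtype.ext (by simp) }
  have h4 : Fx Ω ψ1 := IH W hWlt hndW ψ1 (fun x y => hφ x y)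
  have h5 : Fx Ω ψ2 := IH (lperp H W) (by omega) hndP ψ2 (fun x y => hφ x y)
  have h6 := fx_sub W ψ1 φ (fun _ => rfl) h4
  have h7 := fx_sub (lperp H W) ψ2 φ (fun _ => rfl) h5
  show Submodule.span Ω {x : M | φ x = x} = ⊤
  rw [eq_top_iff, ← hsup]
  apply sup_le
  · exact h6.trans (Submodule.span_mono fun x hx => hx.2)
  · exact h7.trans (Submodule.span_mono fun x hx => hx.2)

end UPC
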