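import Mathlib
import Pool.Agent.UPC.Clo
import Pool.Agent.UPC.Phi

/-!
# Orthonormal bases (project UPC, module UPC-Orth)

Induction on `finrank Ω M` (for all `M` in the universe, with `H`, `φ`). `M ≠ 0`.
(1) There is a fixed `v` with `H v v ≠ 0`: otherwise for fixed `v`, `w` and `a ∈ Ω` with
`a ^ (p ^ 2) = a` the vector `v + a w` is fixed, `0 = a * h ^ p + a ^ p * h` with `h = H v w`
(`H w v = H (φ w) v = (H v w) ^ p`); there are `p ^ 2` such `a` (`X ^ (p ^ 2) - X` splits and is
separable over an algebraically closed subfield), more than the degree `p`, so `h = 0` for all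
fixed `v`, `w`; the fixed vectors span, so `H = 0`, contradiction.
(2) `H v v ^ p = H (φ v) v = H v v`. `e = l • v`, `l ^ (p + 1) * H v v = 1`
(`AC.scale`), so `l ^ (p ^ 2 - 1) = (H v v)⁻¹ ^ (p - 1) = 1`, `l ^ (p ^ 2) = l`, `φ e = e`,
`H e e = 1`.
(3) `N = {y | H y e = 0} = lperp H (span {e})`; `φ N ⊆ N` (`adj_isom`), `res H N` is
nondegenerate, `φ` restricts to a map adjoined to `res H N`, the fixed vectors
`v - H v e • e` (`v` fixed) span `N`. `finrank N = finrank M - 1`. Add `e` to the orthonormal
family of `N` (`H e (e i) = H (φ e) (e i) = (H (e i) e) ^ p = 0`).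
-/

namespace UPC

variable {Ω : Type*} [Field Ω] {p : ℕ} [Fact p.Prime] [CharP Ω p]
variable {M : Type*} [AddCommGroup M] [Module Ω M] [FiniteDimensional Ω M]

omit [FiniteDimensional Ω M] in
/-- orthonormal families are linearly independent -/
theorem on_li {H : M →ₗ[Ω] M →ₛₗ[frobenius Ω p] Ω} {ι : Type*} [Finite ι] [DecidableEq ι]
    {e : ι → M} (he : ∀ i j, H (e i) (e j) = if i = j then 1 else 0) : LinearIndependent Ω e := by
  rw [linearIndependent_iff']
  intro s g hg j hj
  have h1 : H (∑ i ∈ s, g i • e i) (e j) = 0 := by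
    rw [hg, map_zero, LinearMap.zero_apply]
  rw [map_sum, LinearMap.sum_apply] at h1
  have h2 : ∀ i ∈ s, H (g i • e i) (e j) = if i = j then g i else 0 := by
    intro i _
    rw [map_smul, LinearMap.smul_apply, he, smul_eq_mul]
    split_ifs <;> simp
  rw [Finset.sum_congr rfl h2, Finset.sum_ite_eq' s j, if_pos hj] at h1
  exact h1

omit [FiniteDimensional Ω M] in
private theorem oadd1 (H : M →ₗ[Ω] M →ₛₗ[frobenius Ω p] Ω) (x y z : M) :
    H (x + y) z = H x z + H y z := by
  rw [map_add, LinearMap.add_apply]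

omit [FiniteDimensional Ω M] in
private theorem osm1 (H : M →ₗ[Ω] M →ₛₗ[frobenius Ω p] Ω) (c : Ω) (x z : M) :
    H (c • x) z = c * H x z := by
  rw [map_smul, LinearMap.smul_apply, smul_eq_mul]

omit [FiniteDimensional Ω M] in
private theorem oadd2 (H : M →ₗ[Ω] M →ₛₗ[frobenius Ω p] Ω) (x y z : M) :
    H x (y + z) = H x y + H x z := map_add (H x) y z

omit [FiniteDimensional Ω M] in
private theorem osm2 (H : M →ₗ[Ω] M →ₛₗ[frobenius Ω p] Ω) (c : Ω) (x z : M) :
    H x (c • z) = c ^ p * H x z := by
  rw [LinearMap.map_smulₛₗ, frobenius_def, smul_eq_mul]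

/-- an element of the field with `p ^ 2` elements outside of the prime field -/
private theorem orth_elem {r : ℕ} (h : AC r Ω) (hr : 1 ≤ r) :
    ∃ a : Ω, a ^ (p ^ 2) = a ∧ a ^ p ≠ a := by
  have hp : p.Prime := Fact.out
  obtain ⟨c, hc⟩ := h.pow_root hr (by have := hp.two_le; omega : 1 ≤ p - 1) (-1 : Ω)
  have hc0 : c ≠ 0 := by
    rintro rfl
    rw [zero_pow (by have := hp.two_le; omega)] at hc
    have : (1 : Ω) = 0 := by linear_combination hc
    exact one_ne_zero this
  have hcp : c ^ p = -c := by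
    have : c ^ p = c ^ (p - 1) * c := by
      rw [← pow_succ]
      congr 1
      have := hp.two_le
      omega
    rw [this, hc]
    ring
  obtain ⟨l, hl⟩ := h.art hr hp.one_lt c
  refine ⟨l, ?_, ?_⟩
  · have h1 : l ^ p = l + c := by linear_combination hl
    rw [sq, pow_mul, h1, add_pow_char, h1, hcp]
    ring
  · intro h1
    apply hc0
    rw [← hl, h1, sub_self]

omit [FiniteDimensional Ω M] in
private theorem orth_fixed_smul {φ : M →ₛₗ[iterateFrobenius Ω p 2] M} {v : M} (hv : φ v = v)
    {a : Ω} (ha : a ^ (p ^ 2) = a) : φ (a • v) = a • v := by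
  rw [LinearMap.map_smulₛₗ, iterateFrobenius_def, hv, ha]

omit [FiniteDimensional Ω M] in
private theorem orth_ex [Nontrivial M] {r : ℕ} (h : AC r Ω) (hr : 1 ≤ r)
    (H : M →ₗ[Ω] M →ₛₗ[frobenius Ω p] Ω)
    (nd : ND H) (φ : M →ₛₗ[iterateFrobenius Ω p 2] M) (hφ : Adj H φ) (hfx : Fx Ω φ) :
    ∃ v : M, φ v = v ∧ H v v ≠ 0 := by
  by_contra hcon
  push Not at hcon
  obtain ⟨a, ha, hap⟩ := orth_elem (p := p) h hr
  have key : ∀ v w : M, φ v = v → φ w = w → H v w = 0 := by
    intro v w hv hw
    have hwv : H w v = H v w ^ p := by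
      have := hφ v w
      rwa [hw] at this
    have h1 : ∀ b : Ω, b ^ (p ^ 2) = b → b ^ p * H v w + b * H v w ^ p = 0 := by
      intro b hb
      have hf : φ (v + b • w) = v + b • w := by
        rw [map_add, hv, orth_fixed_smul hw hb]
      have h2 := hcon _ hf
      rw [oadd1, oadd2, oadd2, osm1, osm1, osm2, osm2, hcon v hv, hcon w hw, hwv] at h2
      linear_combination h2
    have h3 := h1 1 (one_pow _)
    have h4 := h1 a ha
    rw [one_pow, one_mul, one_mul] at h3
    have h5 : (a ^ p - a) * H v w = 0 := by linear_combination h4 - a * h3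
    rcases mul_eq_zero.1 h5 with h6 | h6
    · exact absurd (sub_eq_zero.1 h6) hap
    · exact h6
  have key2 : ∀ v : M, φ v = v → ∀ w, H v w = 0 := by
    intro v hv w
    have h1 : Submodule.span Ω {x : M | φ x = x} ≤ LinearMap.ker (H v) := by
      rw [Submodule.span_le]
      intro x hx
      exact key v x hv hx
    have h2 : w ∈ LinearMap.ker (H v) := by
      apply h1
      rw [hfx]
      exact Submodule.mem_top
    exact h2
  have key3 : ∀ x : M, x = 0 := by
    intro x
    apply nd
    have h1 : Submodule.span Ω {x : M | φ x = x} ≤ LinearMap.ker H := by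
      rw [Submodule.span_le]
      intro v hv
      show H v = 0
      ext w
      exact key2 v hv w
    have h2 : x ∈ LinearMap.ker H := by
      apply h1
      rw [hfx]
      exact Submodule.mem_top
    intro y
    have h3 : H x = 0 := h2
    rw [h3, LinearMap.zero_apply]
  obtain ⟨x, hx⟩ := _root_.exists_ne (0 : M)
  exact hx (key3 x)

omit [FiniteDimensional Ω M] in
private theorem orth_unit [Nontrivial M] {r : ℕ} (h : AC r Ω) (hr : 1 ≤ r)
    (H : M →ₗ[Ω] M →ₛₗ[frobenius Ω p] Ω)
    (nd : ND H) (φ : M →ₛₗ[iterateFrobenius Ω p 2] M) (hφ : Adj H φ) (hfx : Fx Ω φ) :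
    ∃ e : M, φ e = e ∧ H e e = 1 := by
  obtain ⟨v, hv, hne⟩ := orth_ex h hr H nd φ hφ hfx
  have hu : H v v ^ p = H v v := by
    have := hφ v v
    rw [hv] at this
    exact this.symm
  obtain ⟨l, hl0, hl⟩ := h.scale hr (by omega : 1 ≤ p + 1) hne
  have h1 : l ^ (p ^ 2) = l := by
    have h2 : (l ^ (p + 1) * H v v) ^ p = 1 := by rw [hl, one_pow]
    rw [mul_pow, hu] at h2
    have h3 : (l ^ (p + 1)) ^ p = l ^ (p + 1) := by
      have h4 : ((l ^ (p + 1)) ^ p - l ^ (p + 1)) * H v v = 0 := by
        rw [sub_mul, h2, hl, sub_self]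
      rcases mul_eq_zero.1 h4 with h5 | h5
      · exact sub_eq_zero.1 h5
      · exact absurd h5 hne
    have h6 : l ^ p * l ^ (p ^ 2) = l ^ p * l := by
      rw [← pow_mul] at h3
      calc l ^ p * l ^ (p ^ 2) = l ^ ((p + 1) * p) := by
            rw [← pow_add]
            congr 1
            ring
        _ = l ^ (p + 1) := h3
        _ = l ^ p * l := pow_succ l p
    exact mul_left_cancel₀ (pow_ne_zero _ hl0) h6
  refine ⟨l • v, orth_fixed_smul hv h1, ?_⟩
  rw [osm1, osm2, ← hl, pow_succ]
  ring

private theorem orth_aux {Ω : Type*} [Field Ω] {p : ℕ} [Fact p.Prime] [CharP Ω p]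
    {r : ℕ} (h : AC r Ω) (hr : 1 ≤ r) (n : ℕ) :
    ∀ (M : Type*) [AddCommGroup M] [Module Ω M] [FiniteDimensional Ω M]
      (H : M →ₗ[Ω] M →ₛₗ[frobenius Ω p] Ω) (_ : ND H) (φ : M →ₛₗ[iterateFrobenius Ω p 2] M)
      (_ : Adj H φ) (_ : Fx Ω φ), Module.finrank Ω M = n →
      ∃ e : Fin n → M, ∀ i j, H (e i) (e j) = if i = j then 1 else 0 := by
  induction n with
  | zero =>
    intro M _ _ _ H nd φ hφ hfx hn
    exact ⟨fun i => i.elim0, fun i => i.elim0⟩
  | succ n ih =>
    intro M _ _ _ H nd φ hφ hfx hn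
    haveI : Nontrivial M := Module.finrank_pos_iff.1 (by rw [hn]; omega)
    obtain ⟨e, he, hee⟩ := orth_unit h hr H nd φ hφ hfx
    set N : Submodule Ω M := lperp H (Submodule.span Ω {e}) with hN
    have hmem : ∀ y : M, y ∈ N ↔ H y e = 0 := by
      intro y
      constructor
      · intro hy
        exact hy e (Submodule.mem_span_singleton_self e)
      · intro hy w hw
        obtain ⟨c, rfl⟩ := Submodule.mem_span_singleton.1 hw
        rw [LinearMap.map_smulₛₗ, hy, smul_zero]
    have he0 : e ≠ 0 := by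
      rintro rfl
      rw [map_zero] at hee
      exact zero_ne_one hee
    have hdim : Module.finrank Ω N = n := by
      have h1 := finrank_lperp nd (Submodule.span Ω {e})
      rw [finrank_span_singleton he0, hn, ← hN] at h1
      omega
    -- the projection
    have hpr : ∀ z : M, z - H z e • e ∈ N := by
      intro z
      rw [hmem, map_sub, LinearMap.sub_apply, map_smul, LinearMap.smul_apply, hee, smul_eq_mul,
        mul_one, sub_self]
    have hinv : ∀ y ∈ N, φ y ∈ N := by
      intro y hy
      rw [hmem] at hy ⊢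
      have h1 := adj_isom hφ y e
      rw [he, hy] at h1
      rw [h1, zero_pow (pow_ne_zero _ (Fact.out : p.Prime).ne_zero)]
    have ndN : ND (res H N) := by
      intro x hx
      have h1 : (x : M) = 0 := by
        apply nd
        intro z
        have h2 := hx ⟨z - H z e • e, hpr z⟩
        rw [res_apply] at h2
        have h3 : H (x : M) e = 0 := (hmem _).1 x.2
        have h4 : z = (z - H z e • e) + H z e • e := by abel
        rw [h4, map_add, h2, LinearMap.map_smulₛₗ, h3, smul_zero, add_zero]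
      exact Subtype.ext h1
    set ψ : N →ₛₗ[iterateFrobenius Ω p 2] N :=
      (φ.domRestrict N).codRestrict N (fun y => hinv y y.2) with hψ
    have hψa : ∀ y : N, ((ψ y : N) : M) = φ y := fun y => rfl
    have adjN : Adj (res H N) ψ := by
      intro x y
      rw [res_apply, res_apply, hψa]
      exact hφ x y
    have fxN : Fx Ω ψ := by
      unfold Fx
      set π : M →ₗ[Ω] N := LinearMap.codRestrict N
        (LinearMap.id - ((LinearMap.toSpanSingleton Ω M e).comp
          ({ toFun := fun z => H z e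
             map_add' := fun a b => by rw [map_add, LinearMap.add_apply]
             map_smul' := fun c a => by rw [map_smul, LinearMap.smul_apply, RingHom.id_apply] } :
            M →ₗ[Ω] Ω))) (fun z => hpr z) with hπ
      have hπa : ∀ z : M, ((π z : N) : M) = z - H z e • e := fun z => rfl
      rw [eq_top_iff]
      intro y _
      have hy : π (y : M) = y := by
        apply Subtype.ext
        rw [hπa, (hmem _).1 y.2, zero_smul, sub_zero]
      have h1 : (y : M) ∈ Submodule.span Ω {x : M | φ x = x} := by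
        rw [hfx]
        exact Submodule.mem_top
      have h2 : π (y : M) ∈ Submodule.map π (Submodule.span Ω {x : M | φ x = x}) :=
        Submodule.mem_map_of_mem h1
      rw [Submodule.map_span, hy] at h2
      refine Submodule.span_mono ?_ h2
      rintro _ ⟨v, hv, rfl⟩
      have hv' : φ v = v := hv
      show ψ (π v) = π v
      apply Subtype.ext
      rw [hψa, hπa, map_sub, hv', LinearMap.map_smulₛₗ, he, iterateFrobenius_def]
      have h3 := adj_isom hφ v e
      rw [hv', he] at h3
      rw [← h3]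
    obtain ⟨f, hf⟩ := ih N (res H N) ndN ψ adjN fxN hdim
    refine ⟨Fin.cons e (fun i => (f i : M)), ?_⟩
    have hfe : ∀ i, H (f i : M) e = 0 := fun i => (hmem _).1 (f i).2
    have hef : ∀ i, H e (f i : M) = 0 := by
      intro i
      have h1 := hφ (f i : M) e
      rw [he, hfe i, zero_pow (Fact.out : p.Prime).ne_zero] at h1
      exact h1
    intro i j
    refine Fin.cases ?_ (fun i => ?_) i <;> refine Fin.cases ?_ (fun j => ?_) j
    · simp [hee]
    · simp only [Fin.cons_zero, Fin.cons_succ]
      rw [hef, if_neg (Fin.succ_ne_zero j).symm]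
    · simp only [Fin.cons_zero, Fin.cons_succ]
      rw [hfe, if_neg (Fin.succ_ne_zero i)]
    · simp only [Fin.cons_succ]
      have h1 := hf i j
      rw [res_apply] at h1
      rw [h1]
      simp only [Fin.succ_inj]

theorem orthonormal {r : ℕ} (h : AC r Ω) (hr : 1 ≤ r) (H : M →ₗ[Ω] M →ₛₗ[frobenius Ω p] Ω)
    (nd : ND H) (φ : M →ₛₗ[iterateFrobenius Ω p 2] M) (hφ : Adj H φ) (hfx : Fx Ω φ) :
    ∃ e : Fin (Module.finrank Ω M) → M, ∀ i j, H (e i) (e j) = if i = j then 1 else 0 :=
  orth_aux h hr _ M H nd φ hφ hfx rfl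

end UPC
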