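import Mathlib
import Pool.Agent.UPC.Clo
import Pool.Agent.UPC.CycFix

/-!
# Semilinear maps in dimension at most `r` (project UPC, module UPC-Small)

Strong induction on `finrank Ω V` (all universe-fixed `V`). `x ≠ 0`, `s` and the cyclic subspace
`W` from `exists_cyc`. If `W = ⊤`: the `s = finrank ≤ r` coefficients `c j` of `φ^[s] x` lie in an
algebraically closed subfield (`AC` for the finset of the `c j`), `cyc_fix`. If `W ≠ ⊤`: `W` and
`V / W` have smaller dimension; `φ` is injective on `V / W` by `surj_of_inj` (`σ` is surjective,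
`AC.pow_root`); `fx_sub` and `fix_of_quot` (`AC.art`).
-/

namespace UPC

universe u v

private theorem small_aux {Ω : Type u} [Field Ω] {σ : Ω →+* Ω} {r : ℕ} (h : AC r Ω) (hr : 1 ≤ r)
    {Q : ℕ} (hQ : 1 < Q) (hσ : ∀ a, σ a = a ^ Q) (n : ℕ) :
    ∀ (V : Type v) [AddCommGroup V] [Module Ω V] [FiniteDimensional Ω V] (φ : V →ₛₗ[σ] V),
      Function.Injective φ → Module.finrank Ω V = n → n ≤ r → Fx Ω φ := by
  induction n using Nat.strong_induction_on with
  | _ n ih =>
    intro V _ _ _ φ hi hn hd
    rcases subsingleton_or_nontrivial V with hV | hV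
    · exact Subsingleton.elim _ _
    obtain ⟨x, hx⟩ := exists_ne (0 : V)
    obtain ⟨s, hs, li, mem⟩ := exists_cyc φ hx
    have hsn : s ≤ n := by
      have h1 := li.fintype_card_le_finrank
      rwa [Fintype.card_fin, hn] at h1
    rcases eq_or_ne (Submodule.span Ω (Set.range fun j : Fin s => φ^[(j : ℕ)] x)) ⊤ with hW | hW
    · obtain ⟨c, hc⟩ := (Submodule.mem_span_range_iff_exists_fun Ω).1 mem
      classical
      obtain ⟨F, hF, hS⟩ := h (Finset.univ.image c)
        ((Finset.card_image_le.trans (by rw [Finset.card_fin])).trans (hsn.trans hd))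
      exact cyc_fix hQ hσ φ hi F hF x li hW
        (fun j => ⟨c j, hS _ (Finset.mem_image_of_mem c (Finset.mem_univ j))⟩) hc.symm
    · have hσs : Function.Surjective σ := by
        intro a
        obtain ⟨b, hb⟩ := h.pow_root hr hQ.le a
        exact ⟨b, by rw [hσ, hb]⟩
      obtain ⟨W, hWd⟩ : ∃ W : Submodule Ω V,
          W = Submodule.span Ω (Set.range fun j : Fin s => φ^[(j : ℕ)] x) := ⟨_, rfl⟩
      have hst : ∀ y ∈ W, φ y ∈ W := by
        intro y hy
        rw [hWd] at hy ⊢
        exact cyc_stable φ mem hy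
      have hxW : x ∈ W := by
        rw [hWd]
        exact Submodule.subset_span ⟨⟨0, hs⟩, rfl⟩
      rw [← hWd] at hW
      have hWc : W ≤ W.comap φ := hst
      let ψ : W →ₛₗ[σ] W :=
        { toFun := fun w => ⟨φ w, hst w w.2⟩
          map_add' := fun a b => Subtype.ext (by simp)
          map_smul' := fun c a => Subtype.ext (by simp) }
      have hψi : Function.Injective ψ := by
        intro a b hab
        exact Subtype.ext (hi (congrArg (fun w : W => (w : V)) hab))
      have hlt : Module.finrank Ω W < n := by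
        rw [← hn]
        exact Submodule.finrank_lt hW
      have hpos : 0 < Module.finrank Ω W := by
        have : Nontrivial W := ⟨⟨⟨x, hxW⟩, 0, fun h0 => hx (congrArg (fun w : W => (w : V)) h0)⟩⟩
        exact Module.finrank_pos
      have hq := Submodule.finrank_quotient_add_finrank W
      have hqi : Function.Injective (W.mapQ W φ hWc) := by
        rw [injective_iff_map_eq_zero]
        intro q hq0
        obtain ⟨y, rfl⟩ := W.mkQ_surjective q
        rw [Submodule.mkQ_apply, Submodule.mapQ_apply, Submodule.Quotient.mk_eq_zero] at hq0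
        obtain ⟨z, hz, hzy⟩ := surj_of_inj φ hi hσs W hst hq0
        rw [Submodule.mkQ_apply, Submodule.Quotient.mk_eq_zero, ← hi hzy]
        exact hz
      have as : ∀ c : Ω, ∃ l : Ω, σ l - l = c := by
        intro c
        obtain ⟨l, hl⟩ := h.art hr hQ c
        exact ⟨l, by rw [hσ, hl]⟩
      exact fix_of_quot φ as W hWc
        (fx_sub W ψ φ (fun _ => rfl) (ih _ hlt W ψ hψi rfl (hlt.le.trans hd)))
        (ih _ (by omega) (V ⧸ W) (W.mapQ W φ hWc) hqi rfl (by omega))

theorem small {Ω : Type*} [Field Ω] {σ : Ω →+* Ω} {r : ℕ} (h : AC r Ω) (hr : 1 ≤ r) {Q : ℕ}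
    (hQ : 1 < Q) (hσ : ∀ a, σ a = a ^ Q) {V : Type*} [AddCommGroup V] [Module Ω V]
    [FiniteDimensional Ω V] (φ : V →ₛₗ[σ] V) (hi : Function.Injective φ)
    (hd : Module.finrank Ω V ≤ r) : Fx Ω φ :=
  small_aux h hr hQ hσ _ V φ hi rfl hd

end UPC
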