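import Mathlib
import Pool.Agent.UPC.ExtFix
import Pool.Agent.UPC.Phi

/-!
# From the orthogonal complement to the whole space (project UPC, module UPC-Up)

Let `P' = lperp H P` and let `v j` be a basis of `P` of fixed vectors (or avoid the basis by an
argument with `fix_of_quot`). There are `y i ∈ M` with `H (y i) (v j) = δ_ij` (the map
`M → (Fin a → Ω)`, `y ↦ (H y (v j))_j` is linear with kernel `P'`, so surjective by
`finrank_lperp`). `H (φ (y i)) (v j) = H (φ (y i)) (φ (v j)) = δ_ij ^ (p ^ 2) = δ_ij` (`adj_isom`),
so `φ (y i) - y i ∈ P'`; `fix_lift` for `P'` gives `z i ∈ P'` with `y i + z i` fixed. `P'` and the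
`y i` span `M`. (`as` is what `fix_lift` needs: `iterateFrobenius Ω p 2 l = l ^ (p ^ 2)`.)
-/

namespace UPC

variable {Ω : Type*} [Field Ω] {p : ℕ} [Fact p.Prime] [CharP Ω p]
variable {M : Type*} [AddCommGroup M] [Module Ω M] [FiniteDimensional Ω M]
variable {H : M →ₗ[Ω] M →ₛₗ[frobenius Ω p] Ω}

theorem up (as : ∀ c : Ω, ∃ l : Ω, l ^ (p ^ 2) - l = c) (nd : ND H)
    (φ : M →ₛₗ[iterateFrobenius Ω p 2] M) (hφ : Adj H φ) {P : Submodule Ω M}
    (h1 : P ≤ Submodule.span Ω {x : M | x ∈ P ∧ φ x = x})
    (h2 : lperp H P ≤ Submodule.span Ω {x : M | x ∈ lperp H P ∧ φ x = x}) : Fx Ω φ := by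
  classical
  obtain ⟨b, hbs, hspan, hli⟩ := exists_linearIndependent Ω {x : M | x ∈ P ∧ φ x = x}
  haveI : Finite b := hli.finite
  haveI : Fintype b := Fintype.ofFinite b
  have hP : Submodule.span Ω b = P := by
    rw [hspan]
    apply le_antisymm
    · rw [Submodule.span_le]
      exact fun x hx => hx.1
    · exact h1
  let T : M →ₗ[Ω] (b → Ω) :=
    { toFun := fun y j => H y (j : M)
      map_add' := fun x y => by
        funext j
        simp
      map_smul' := fun c x => by
        funext j
        simp }
  have hT : ∀ y (j : b), T y j = H y (j : M) := fun _ _ => rfl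
  have hker : ∀ y, T y = 0 ↔ y ∈ lperp H P := by
    intro y
    constructor
    · intro hy
      show ∀ w ∈ P, H y w = 0
      rw [← hP]
      intro w hw
      induction hw using Submodule.span_induction with
      | mem x hx =>
        have := congrFun hy ⟨x, hx⟩
        rw [hT] at this
        exact this
      | zero => exact map_zero _
      | add u v _ _ hu hv => rw [map_add, hu, hv, add_zero]
      | smul a u _ hu => rw [LinearMap.map_smulₛₗ, hu, smul_zero]
    · intro hy
      funext j
      rw [hT]
      exact hy _ (hbs j.2).1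
  have hkereq : LinearMap.ker T = lperp H P := by
    ext y
    rw [LinearMap.mem_ker, hker]
  have hsurj : Function.Surjective T := by
    rw [← LinearMap.range_eq_top]
    apply Submodule.eq_top_of_finrank_eq
    have h3 := LinearMap.finrank_range_add_finrank_ker T
    rw [hkereq] at h3
    have h4 := finrank_lperp nd P
    have h5 : Module.finrank Ω P = Fintype.card b := by
      rw [← hP]
      exact finrank_span_set_eq_card hli |>.trans (by rw [Set.toFinset_card])
    rw [Module.finrank_fintype_fun_eq_card]
    omega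
  have hfix : ∀ i : b, ∃ z : M, φ z = z ∧ T z = Pi.single i 1 := by
    intro i
    obtain ⟨y, hy⟩ := hsurj (Pi.single i 1)
    have h6 : φ y - y ∈ lperp H P := by
      rw [← hker]
      funext j
      rw [hT, map_sub, LinearMap.sub_apply, Pi.zero_apply]
      have h7 : H (φ y) (j : M) = H y (j : M) ^ (p ^ 2) := by
        have h8 := adj_isom hφ y (j : M)
        rw [(hbs j.2).2] at h8
        exact h8
      have h9 : H y (j : M) = (Pi.single i 1 : b → Ω) j := by
        rw [← hT, hy]
      rw [h7, h9]
      by_cases hij : j = i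
      · subst hij
        rw [Pi.single_eq_same, one_pow, sub_self]
      · rw [Pi.single_eq_of_ne hij, zero_pow, sub_self]
        exact pow_ne_zero _ (Fact.out : p.Prime).ne_zero
    obtain ⟨w, hw, hw2⟩ := fix_lift φ (fun c => by
      obtain ⟨l, hl⟩ := as c
      exact ⟨l, by rw [iterateFrobenius_def]; exact hl⟩) (lperp H P) h2 h6
    refine ⟨y + w, hw2, ?_⟩
    rw [map_add, (hker w).mpr hw, add_zero, hy]
  choose z hz1 hz2 using hfix
  show Submodule.span Ω {x : M | φ x = x} = ⊤
  rw [eq_top_iff]
  intro x _
  have h10 : x - ∑ i, T x i • z i ∈ lperp H P := by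
    rw [← hker, map_sub, map_sum]
    funext j
    rw [Pi.sub_apply, Finset.sum_apply, Finset.sum_eq_single j]
    · rw [map_smul, hz2, Pi.smul_apply, Pi.single_eq_same, smul_eq_mul, mul_one, sub_self,
        Pi.zero_apply]
    · intro i _ hij
      rw [map_smul, hz2, Pi.smul_apply, Pi.single_eq_of_ne (Ne.symm hij), smul_zero]
    · intro h
      exact absurd (Finset.mem_univ j) h
  have h11 : x - ∑ i, T x i • z i ∈ Submodule.span Ω {x : M | φ x = x} :=
    Submodule.span_mono (fun y hy => hy.2) (h2 h10)
  have h12 : ∑ i, T x i • z i ∈ Submodule.span Ω {x : M | φ x = x} :=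
    Submodule.sum_mem _ fun i _ => Submodule.smul_mem _ _ (Submodule.subset_span (hz1 i))
  have h13 := Submodule.add_mem _ h11 h12
  rwa [sub_add_cancel] at h13

end UPC
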