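import Mathlib
import Pool.Agent.UPC.Small
import Pool.Agent.UPC.Orth
import Pool.Agent.UPC.Perp
import Pool.Agent.UPC.Up

/-!
# A totally isotropic stable subspace (project UPC, module UPC-StabB)

`P ≤ P' = lperp H P`, so `2 dim P ≤ dim M ≤ 2 r + 1` (`finrank_lperp`), `dim P ≤ r`, and `small`
(for the restriction of `φ` to `P`) with `fx_sub` shows that the fixed vectors of `P` span `P`.
`P'` is stable (`perp_stable`), `lperp H P' = P` (`perp_perp`).
Let `N` be a complement of `P` in `P'`: `P ⊓ N = ⊥`, `P ⊔ N = P'`. `res H N` is nondegenerate: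
`y ∈ N` and `H y N = 0`, `H y P = 0` (`y ∈ P'`) imply `y ∈ lperp H P' = P`, so `y = 0`.
`dim N = dim M - 2 dim P < dim M`; `exists_adj`, `IH` and `orthonormal` give an orthonormal basis
`e i` of `N` (`on_li` and dimension: it spans). `z = φ (e i) - e i` is in `P'` and `H z (e j) =
(H (e j) (e i)) ^ p - H (e i) (e j) = 0`, `H z P = 0`, so `z ∈ lperp H P' = P`. By `fix_lift`
(`AC.art`) there are `w i ∈ P` with `e i + w i` fixed. So the fixed vectors of `P'` span `P'`: `up`.
-/

namespace UPC

variable {Ω : Type*} [Field Ω] {p : ℕ} [Fact p.Prime] [CharP Ω p]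
variable {M : Type*} [AddCommGroup M] [Module Ω M] [FiniteDimensional Ω M]

theorem stabB {r : ℕ} (h : AC r Ω) (hr : 1 ≤ r) (H : M →ₗ[Ω] M →ₛₗ[frobenius Ω p] Ω)
    (nd : ND H) (φ : M →ₛₗ[iterateFrobenius Ω p 2] M) (hφ : Adj H φ)
    (hm : Module.finrank Ω M ≤ 2 * r + 1)
    (IH : ∀ N : Submodule Ω M, Module.finrank Ω N < Module.finrank Ω M → ND (res H N) →
      ∀ ψ : N →ₛₗ[iterateFrobenius Ω p 2] N, Adj (res H N) ψ → Fx Ω ψ)
    (P : Submodule Ω M) (hP : ∀ y ∈ P, φ y ∈ P) (h0 : P ≠ ⊥)
    (hz : ∀ y ∈ P, ∀ z ∈ P, H y z = 0) : Fx Ω φ := by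
  classical
  have hp1 : 1 < p := (Fact.out : p.Prime).one_lt
  have hQ : 1 < p ^ 2 := Nat.one_lt_pow (by norm_num) hp1
  have hσ : ∀ a : Ω, iterateFrobenius Ω p 2 a = a ^ (p ^ 2) := fun a => iterateFrobenius_def p 2 a
  have hPP : P ≤ lperp H P := fun y hy w hw => hz y hy w hw
  have hdim := finrank_lperp nd P
  have hmono := Submodule.finrank_mono hPP
  have hPr : Module.finrank Ω P ≤ r := by omega
  -- the fixed vectors of `P`
  have hPfix : P ≤ Submodule.span Ω {x : M | x ∈ P ∧ φ x = x} := by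
    let ψP : P →ₛₗ[iterateFrobenius Ω p 2] P :=
      (φ.domRestrict P).codRestrict P (fun y => hP y y.2)
    have hval : ∀ w : P, ((ψP w : P) : M) = φ w := fun w => rfl
    have hinj : Function.Injective ψP := by
      intro a b hab
      apply Subtype.ext
      apply adj_inj nd hφ
      rw [← hval, ← hval, hab]
    exact fx_sub P ψP φ hval (small h hr hQ hσ ψP hinj hPr)
  have hpp : lperp H (lperp H P) = P := perp_perp nd φ hφ hPfix
  -- the complement
  obtain ⟨Q, hQc⟩ := Submodule.exists_isCompl P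
  obtain ⟨N, hN⟩ : ∃ N : Submodule Ω M, N = Q ⊓ lperp H P := ⟨_, rfl⟩
  have hsup : P ⊔ N = lperp H P := by
    rw [hN, ← sup_inf_assoc_of_le Q hPP, hQc.sup_eq_top, top_inf_eq]
  have hNQ : N ≤ Q := by
    rw [hN]
    exact inf_le_left
  have hNP : N ≤ lperp H P := by
    rw [hN]
    exact inf_le_right
  have ndN : ND (res H N) := by
    intro x hx
    have h1 : (x : M) ∈ lperp H (lperp H P) := by
      intro w hw
      rw [← hsup, Submodule.mem_sup] at hw
      obtain ⟨u, hu, v, hv, rfl⟩ := hw
      have h2 : H (x : M) u = 0 := hNP x.2 u hu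
      have h3 : H (x : M) v = 0 := hx ⟨v, hv⟩
      rw [map_add, h2, h3, add_zero]
    rw [hpp] at h1
    have h2 : (x : M) ∈ P ⊓ Q := ⟨h1, hNQ x.2⟩
    rw [hQc.inf_eq_bot, Submodule.mem_bot] at h2
    exact Subtype.ext h2
  have hlt : Module.finrank Ω N < Module.finrank Ω M := by
    have h1 := Submodule.finrank_add_eq_of_isCompl hQc
    have h2 := Submodule.finrank_mono hNQ
    have h3 : 0 < Module.finrank Ω P := by
      rw [Nat.pos_iff_ne_zero]
      intro h4
      exact h0 (Submodule.finrank_eq_zero.1 h4)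
    omega
  obtain ⟨ψ, hψ⟩ := exists_adj ndN
  obtain ⟨e, he⟩ := orthonormal h hr (res H N) ndN ψ hψ (IH N hlt ndN ψ hψ)
  have htop : Submodule.span Ω (Set.range e) = ⊤ :=
    (on_li he).span_eq_top_of_card_eq_finrank' (Fintype.card_fin _)
  have hNspan : N = Submodule.span Ω (Set.range fun i => (e i : M)) := by
    have h1 := congrArg (Submodule.map N.subtype) htop
    rw [Submodule.map_span, Submodule.map_subtype_top, ← Set.range_comp] at h1
    exact h1.symm
  have as : ∀ c : Ω, ∃ l : Ω, l ^ (p ^ 2) - l = c := fun c => h.art hr hQ c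
  have hlift : ∀ i, ∃ w ∈ P, φ ((e i : M) + w) = (e i : M) + w := by
    intro i
    refine fix_lift φ (fun c => ?_) P hPfix ?_
    · obtain ⟨l, hl⟩ := as c
      exact ⟨l, by rw [hσ]; exact hl⟩
    · rw [← hpp]
      have hker : P ⊔ N ≤ LinearMap.ker (H (φ (e i : M) - (e i : M))) := by
        refine sup_le ?_ ?_
        · intro u hu
          rw [LinearMap.mem_ker, map_sub, LinearMap.sub_apply, hφ]
          have h1 : H u (e i : M) = 0 := by
            have h2 : u ∈ lperp H (lperp H P) := by
              rw [hpp]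
              exact hu
            exact h2 _ (hNP (e i).2)
          have h3 : H (e i : M) u = 0 := hNP (e i).2 u hu
          rw [h1, h3, zero_pow (Nat.Prime.ne_zero Fact.out), sub_zero]
        · refine hNspan.le.trans (Submodule.span_le.2 ?_)
          rintro _ ⟨j, rfl⟩
          change H (φ (e i : M) - (e i : M)) (e j : M) = 0
          rw [map_sub, LinearMap.sub_apply, hφ]
          have h1 : H (e j : M) (e i : M) = if j = i then 1 else 0 := he j i
          have h2 : H (e i : M) (e j : M) = if i = j then 1 else 0 := he i j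
          rw [h1, h2]
          by_cases hij : i = j
          · rw [if_pos hij, if_pos hij.symm, one_pow, sub_self]
          · rw [if_neg hij, if_neg (fun h => hij h.symm),
              zero_pow (Nat.Prime.ne_zero Fact.out), sub_zero]
      intro w hw
      rw [← hsup] at hw
      exact LinearMap.mem_ker.1 (hker hw)
  have hPspan : P ≤ Submodule.span Ω {x : M | x ∈ lperp H P ∧ φ x = x} :=
    hPfix.trans (Submodule.span_mono fun x hx => ⟨hPP hx.1, hx.2⟩)
  have h2 : lperp H P ≤ Submodule.span Ω {x : M | x ∈ lperp H P ∧ φ x = x} := by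
    conv_lhs => rw [← hsup]
    refine sup_le hPspan ?_
    refine hNspan.le.trans (Submodule.span_le.2 ?_)
    rintro _ ⟨i, rfl⟩
    obtain ⟨w, hw, hfix⟩ := hlift i
    have h3 : (e i : M) + w ∈ Submodule.span Ω {x : M | x ∈ lperp H P ∧ φ x = x} :=
      Submodule.subset_span ⟨Submodule.add_mem _ (hNP (e i).2) (hPP hw), hfix⟩
    have h4 := Submodule.sub_mem _ h3 (hPspan hw)
    rwa [add_sub_cancel_right] at h4
  exact up as nd φ hφ hPfix h2

end UPC
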