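import Mathlib
import Pool.Agent.UPC.StabA
import Pool.Agent.UPC.StabB

/-!
# A stable proper subspace (project UPC, module UPC-Stab)

`P = W ⊓ lperp H W` is stable and totally isotropic: `stabA` if `P = ⊥`, `stabB` if not.
-/

namespace UPC

variable {Ω : Type*} [Field Ω] {p : ℕ} [Fact p.Prime] [CharP Ω p]
variable {M : Type*} [AddCommGroup M] [Module Ω M] [FiniteDimensional Ω M]

theorem stab {r : ℕ} (h : AC r Ω) (hr : 1 ≤ r) (H : M →ₗ[Ω] M →ₛₗ[frobenius Ω p] Ω)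
    (nd : ND H) (φ : M →ₛₗ[iterateFrobenius Ω p 2] M) (hφ : Adj H φ)
    (hm : Module.finrank Ω M ≤ 2 * r + 1)
    (IH : ∀ N : Submodule Ω M, Module.finrank Ω N < Module.finrank Ω M → ND (res H N) →
      ∀ ψ : N →ₛₗ[iterateFrobenius Ω p 2] N, Adj (res H N) ψ → Fx Ω ψ)
    (W : Submodule Ω M) (hW : ∀ y ∈ W, φ y ∈ W) (h0 : W ≠ ⊥) (h1 : W ≠ ⊤) : Fx Ω φ := by
  have hp : p ^ 2 ≠ 0 := pow_ne_zero 2 (Fact.out : p.Prime).ne_zero
  by_cases hb : W ⊓ lperp H W = ⊥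
  · exact stabA h hr H nd φ hφ IH W hW h0 h1 hb
  · refine stabB h hr H nd φ hφ hm IH (W ⊓ lperp H W) ?_ hb ?_
    · intro y hy
      exact ⟨hW y hy.1, perp_stable (fun a => h.pow_root hr (Nat.one_le_iff_ne_zero.2 hp) a) nd φ hφ
        hW hy.2⟩
    · intro y hy z hz
      exact hy.2 z hz.1

end UPC
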