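import Mathlib
import Pool.Agent.UPC.Iso
import Pool.Agent.UPC.Par
import Pool.Agent.UPC.Stab

/-!
# The main theorem on sesquilinear forms (project UPC, module UPC-Main)

Strong induction on `finrank Ω M` (for all `M : Type u`). `M = 0` is trivial. `Ω` is infinite, so
there is `x₁` with `H x₁ x₁ ≠ 0` (`exists_ne`). `N = lperp H (span {x₁})` has dimension
`d = finrank M - 1`, `res H N` is nondegenerate (`y ∈ N`, `H y N = 0`, `H y x₁ = 0`,
`M = N + span {x₁}`), `exists_adj`, induction hypothesis and `orthonormal` give the orthonormal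
basis `e` of `N`. `exists_iso` gives `x ≠ 0` with `H x (φ^[t] x) = 0` for `t < d / 2`. `exists_cyc`
gives `s` and the stable subspace `W` (`cyc_stable`). If `W = ⊤` then `s = finrank M = d + 1` and
`par` applies with `q = d / 2` because `d + 1 ≤ r + d / 2 + 1` for `d ≤ 2 r`. If `W ≠ ⊤`: `stab`.
-/

namespace UPC

universe u

private theorem main_aux {Ω : Type u} [Field Ω] {p : ℕ} [Fact p.Prime] [CharP Ω p] {r : ℕ}
    (h : AC r Ω) (hr : 1 ≤ r) (n : ℕ) : ∀ (M : Type u) [AddCommGroup M] [Module Ω M]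
    [FiniteDimensional Ω M] (H : M →ₗ[Ω] M →ₛₗ[frobenius Ω p] Ω) (_ : ND H)
    (φ : M →ₛₗ[iterateFrobenius Ω p 2] M) (_ : Adj H φ) (_ : Module.finrank Ω M = n)
    (_ : n ≤ 2 * r + 1), Fx Ω φ := by
  induction n using Nat.strong_induction_on with
  | _ n ih =>
  intro M _ _ _ H nd φ hφ hM hn
  have IH : ∀ N : Submodule Ω M, Module.finrank Ω N < Module.finrank Ω M → ND (res H N) →
      ∀ ψ : N →ₛₗ[iterateFrobenius Ω p 2] N, Adj (res H N) ψ → Fx Ω ψ := by
    intro N hN ndN ψ hψ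
    exact ih (Module.finrank Ω N) (hM ▸ hN) N (res H N) ndN ψ hψ rfl (by omega)
  rcases Nat.eq_zero_or_pos n with hn0 | hn0
  · have : Subsingleton M := Module.finrank_zero_iff.mp (hM.trans hn0)
    exact Subsingleton.elim _ _
  have hnt : Nontrivial M := by
    apply Module.nontrivial_of_finrank_pos (R := Ω)
    omega
  have hinf : Infinite Ω := h.infinite
  obtain ⟨x₁, hx₁⟩ := exists_ne nd
  have hx₁0 : x₁ ≠ 0 := by
    rintro rfl
    exact hx₁ (by rw [map_zero])
  have hmem : ∀ y : M, H y x₁ = 0 → y ∈ lperp H (Submodule.span Ω {x₁}) := by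
    intro y hy w hw
    obtain ⟨a, rfl⟩ := Submodule.mem_span_singleton.mp hw
    rw [LinearMap.map_smulₛₗ, hy, smul_zero]
  have hmem' : ∀ y : M, y ∈ lperp H (Submodule.span Ω {x₁}) → H y x₁ = 0 := by
    intro y hy
    exact hy x₁ (Submodule.mem_span_singleton_self x₁)
  have hdim := finrank_lperp nd (Submodule.span Ω {x₁})
  rw [finrank_span_singleton hx₁0] at hdim
  obtain ⟨N, hN⟩ : ∃ N : Submodule Ω M, N = lperp H (Submodule.span Ω {x₁}) := ⟨_, rfl⟩
  rw [← hN] at hmem hmem' hdim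
  have ndN : ND (res H N) := by
    intro y hy
    apply Subtype.ext
    apply nd
    intro m
    have h1 : m - (H m x₁ / H x₁ x₁) • x₁ ∈ N := by
      apply hmem
      rw [map_sub, LinearMap.sub_apply, map_smul, LinearMap.smul_apply, smul_eq_mul,
        div_mul_cancel₀ _ hx₁, sub_self]
    have h2 : H (y : M) (m - (H m x₁ / H x₁ x₁) • x₁) = 0 := hy ⟨_, h1⟩
    rw [map_sub, LinearMap.map_smulₛₗ, hmem' y y.2, smul_zero, sub_zero] at h2
    exact h2
  obtain ⟨ψ, hψ⟩ := exists_adj ndN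
  obtain ⟨e, he⟩ := orthonormal h hr (res H N) ndN ψ hψ (IH N (by omega) ndN ψ hψ)
  obtain ⟨α, hα, hα2⟩ := h.alpha (p := p)
  have hp1 : 1 ≤ p := (Fact.out : p.Prime).one_lt.le
  obtain ⟨x, hx0, hx⟩ := exists_iso (fun a => h.pow_root hr hp1 a) hα hα2 nd φ hφ hx₁
    (fun i => (e i : M)) hdim.symm (fun i => hmem' _ (e i).2) he
  obtain ⟨s, hs1, li, hs⟩ := exists_cyc φ hx0
  by_cases hW : Submodule.span Ω (Set.range fun j : Fin s => φ^[(j : ℕ)] x) = ⊤
  · have hsM : Module.finrank Ω M = s := by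
      have h1 := finrank_span_eq_card li
      rw [hW, finrank_top, Fintype.card_fin] at h1
      exact h1
    refine par h hr nd φ hφ hsM li hx ?_
    omega
  · refine stab h hr H nd φ hφ (by omega) IH _ (fun y hy => cyc_stable φ hs hy) ?_ hW
    intro hbot
    have h1 : x ∈ Submodule.span Ω (Set.range fun j : Fin s => φ^[(j : ℕ)] x) :=
      Submodule.subset_span ⟨⟨0, hs1⟩, rfl⟩
    rw [hbot, Submodule.mem_bot] at h1
    exact hx0 h1

theorem main {Ω : Type u} [Field Ω] {p : ℕ} [Fact p.Prime] [CharP Ω p] {r : ℕ} (h : AC r Ω)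
    (hr : 1 ≤ r) {M : Type u} [AddCommGroup M] [Module Ω M] [FiniteDimensional Ω M]
    (H : M →ₗ[Ω] M →ₛₗ[frobenius Ω p] Ω) (nd : ND H) (φ : M →ₛₗ[iterateFrobenius Ω p 2] M)
    (hφ : Adj H φ) (hm : Module.finrank Ω M ≤ 2 * r + 1) : Fx Ω φ := by
  exact main_aux h hr (Module.finrank Ω M) M H nd φ hφ rfl hm

end UPC
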