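import Mathlib
import Pool.Agent.UPC.Clo
import Pool.Agent.UPC.Phi

/-!
# The form `Tr (a b ^ p)` (project UPC, module UPC-Tr)

`Ω` is perfect (`AC.pow_root`), so `L / Ω` is separable and the trace form is nondegenerate
(`traceForm_nondegenerate`). `trH_nd`: if `Tr (a b ^ p) = 0` for all `b` then `Tr (a c) = 0` for all
`c`, because every `c ∈ L` is a `p`-th power (`L` is perfect as an algebraic extension of a perfect
field, `PerfectField`/`PerfectRing` instances, or: the `p`-th powers of a basis are a basis).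
-/

namespace UPC

variable {Ω : Type*} [Field Ω] {p : ℕ} [Fact p.Prime] [CharP Ω p]
variable (L : Type*) [Field L] [Algebra Ω L]

/-- `Tr (a b ^ p)` -/
noncomputable def trH : L →ₗ[Ω] L →ₛₗ[frobenius Ω p] Ω :=
  haveI : CharP L p := charP_of_injective_algebraMap (algebraMap Ω L).injective p
  LinearMap.mk₂'ₛₗ (RingHom.id Ω) (frobenius Ω p) (fun a b => Algebra.trace Ω L (a * b ^ p))
    (by intro a a' b; rw [add_mul, map_add])
    (by intro c a b; rw [smul_mul_assoc, map_smul]; rfl)
    (by intro a b b'; rw [add_pow_char, mul_add, map_add])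
    (by intro c a b; rw [Algebra.smul_def, mul_pow, ← map_pow, mul_left_comm,
        ← Algebra.smul_def, map_smul]; rfl)

theorem trH_apply (a b : L) : trH (p := p) L a b = Algebra.trace Ω L (a * b ^ p) := rfl

/-- `y ^ (p ^ 2)` -/
noncomputable def frL : L →ₛₗ[iterateFrobenius Ω p 2] L :=
  haveI : CharP L p := charP_of_injective_algebraMap (algebraMap Ω L).injective p
  { toFun := fun y => y ^ (p ^ 2)
    map_add' := by intro a b; exact add_pow_char_pow a b p 2
    map_smul' := by
      intro c a
      rw [Algebra.smul_def, mul_pow, ← map_pow, Algebra.smul_def]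
      rfl }

theorem frL_apply (a : L) : frL (Ω := Ω) (p := p) L a = a ^ (p ^ 2) := rfl

variable {r : ℕ}

private theorem perf0 (p : ℕ) [Fact p.Prime] [CharP Ω p] (h : AC r Ω) (hr : 1 ≤ r) :
    PerfectField Ω := by
  have : PerfectRing Ω p := PerfectRing.ofSurjective Ω p fun a => by
    obtain ⟨b, hb⟩ := h.pow_root hr (N := p) (Fact.out : p.Prime).one_lt.le a
    exact ⟨b, hb⟩
  exact PerfectRing.toPerfectField Ω p

private theorem perf (h : AC r Ω) (hr : 1 ≤ r) : PerfectField Ω := by
  obtain ⟨q, hq⟩ := CharP.exists Ω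
  rcases CharP.char_is_prime_or_zero Ω q with h1 | h1
  · have : Fact q.Prime := ⟨h1⟩
    exact perf0 q h hr
  · subst h1
    have : CharZero Ω := CharP.charP_to_charZero Ω
    infer_instance

private theorem sep [FiniteDimensional Ω L] (h : AC r Ω) (hr : 1 ≤ r) :
    Algebra.IsSeparable Ω L := by
  have := perf h hr
  infer_instance

/-- the trace of a `p`-th power -/
theorem trace_pow [FiniteDimensional Ω L] (h : AC r Ω) (hr : 1 ≤ r) (a : L) :
    Algebra.trace Ω L (a ^ p) = (Algebra.trace Ω L a) ^ p := by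
  haveI := sep L h hr
  apply (algebraMap Ω (AlgebraicClosure Ω)).injective
  haveI : CharP (AlgebraicClosure Ω) p :=
    charP_of_injective_algebraMap (algebraMap Ω (AlgebraicClosure Ω)).injective p
  have h1 := trace_eq_sum_embeddings (K := Ω) (L := L) (AlgebraicClosure Ω) (x := a ^ p)
  have h2 := trace_eq_sum_embeddings (K := Ω) (L := L) (AlgebraicClosure Ω) (x := a)
  rw [h1, (algebraMap Ω (AlgebraicClosure Ω)).map_pow, h2, sum_pow_char]
  exact Finset.sum_congr rfl fun σ _ => map_pow σ a p

theorem trH_adj [FiniteDimensional Ω L] (h : AC r Ω) (hr : 1 ≤ r) :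
    Adj (trH (Ω := Ω) (p := p) L) (frL (Ω := Ω) (p := p) L) := by
  intro x y
  rw [trH_apply, trH_apply, frL_apply, ← trace_pow L h hr]
  congr 1
  rw [mul_pow, ← pow_mul, pow_two, mul_comm]

theorem trH_nd [FiniteDimensional Ω L] (h : AC r Ω) (hr : 1 ≤ r) :
    ND (trH (Ω := Ω) (p := p) L) := by
  haveI := sep L h hr
  haveI := perf h hr
  haveI : CharP L p := charP_of_injective_algebraMap (algebraMap Ω L).injective p
  haveI : PerfectField L := Algebra.IsAlgebraic.perfectField (K := Ω)
  haveI : PerfectRing L p := PerfectField.toPerfectRing p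
  intro x hx
  refine (traceForm_nondegenerate Ω L).1 x fun z => ?_
  obtain ⟨y, hy⟩ := (PerfectRing.bijective_frobenius (R := L) (p := p)).2 z
  have h1 := hx y
  rw [trH_apply] at h1
  rw [Algebra.traceForm_apply, ← hy]
  exact h1

/-- the trace form is not zero -/
theorem exists_trace [FiniteDimensional Ω L] (h : AC r Ω) (hr : 1 ≤ r) :
    ∃ a : L, Algebra.trace Ω L a ≠ 0 := by
  haveI := sep L h hr
  obtain ⟨a, ha⟩ := Algebra.trace_surjective Ω L 1
  exact ⟨a, by rw [ha]; exact one_ne_zero⟩

end UPC
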