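import Mathlib
import Pool.Agent.UPC.Main
import Pool.Agent.UPC.Tr

/-!
# Extensions of degree at most `2 r + 2` (project UPC, module UPC-FieldExt)

(1) `finrank Ω L ≤ 2 r + 1`: `main` for `trH L`, `frL L`: `L` is spanned over `Ω` by the `y` with
`y ^ (p ^ 2) = y`, all of them in the image of `Ω` (`AC.fixed_mem`), so `algebraMap` is surjective.
(2) Otherwise let `d = finrank Ω L ≥ 2 r + 2 ≥ 4`, `T = ker trace`, of dimension `d - 1`
(`exists_trace`), `P = T ⊓ Ω 1` (`Ω 1 = 1 : Submodule Ω L` or the span of `1`), `N` a complement of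
`P` in `T`. `P = ⊥` if `p ∤ d` (`Tr c = d c`), `P = Ω 1` if `p ∣ d`. So `finrank N ≥ d - 2 ≥ 2` and
`finrank N ≤ 2 r + 1` (`d = 2 r + 2`: `N ≤ T`; `d = 2 r + 3`, `p ∣ d`: `finrank N = d - 2`).
(3) If `z ∈ L` and `H z b = 0` for all `b ∈ T` then `z ∈ Ω 1`: `lperp H T` has dimension `1` and
contains `1` (`H 1 b = Tr (b ^ p) = (Tr b) ^ p`).
(4) `res H N` is nondegenerate: `a ∈ N`, `H a N = 0`; `H a 1 = Tr a = 0`; so `H a T = 0`
(`T = P ⊔ N`, `P ≤ Ω 1`), `a ∈ Ω 1 ⊓ T ⊓ N = P ⊓ N = ⊥`.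
(5) `exists_adj`, `main`, `orthonormal`: `e 0 ∈ N`, `H (e 0) (e j) = δ_{0 j}`, the `e j` a basis of
`N`. `z = (e 0) ^ (p ^ 2) - e 0` satisfies `H z (e j) = (H (e j) (e 0)) ^ p - H (e 0) (e j) = 0`
(`trH_adj`), `H z 1 = Tr z = 0` (`trace_pow` twice), so `H z T = 0` and `z = c ∈ Ω` by (3).
`AC.art`: `l ^ (p ^ 2) - l = - c`; `e 0 + l` is fixed, so in `Ω` (`AC.fixed_mem`), so `e 0 ∈ Ω 1`,
`e 0 ∈ P ⊓ N = ⊥`, contradiction to `H (e 0) (e 0) = 1`.
-/

namespace UPC

universe u

section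

variable {Ω : Type u} [Field Ω] {r : ℕ}
variable (L : Type u) [Field L] [Algebra Ω L] [FiniteDimensional Ω L]

/-- the scalars in `L` -/
private noncomputable def sc (Ω : Type u) [Field Ω] (L : Type u) [Field L] [Algebra Ω L] :
    Submodule Ω L := Submodule.span Ω {1}

omit [FiniteDimensional Ω L] in
private theorem mem_sc {x : L} : x ∈ sc Ω L ↔ ∃ a : Ω, algebraMap Ω L a = x := by
  rw [sc, Submodule.mem_span_singleton]
  constructor
  · rintro ⟨a, rfl⟩
    exact ⟨a, Algebra.algebraMap_eq_smul_one a⟩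
  · rintro ⟨a, rfl⟩
    exact ⟨a, (Algebra.algebraMap_eq_smul_one a).symm⟩

omit [FiniteDimensional Ω L] in
private theorem finrank_sc : Module.finrank Ω (sc Ω L) = 1 :=
  finrank_span_singleton one_ne_zero

private theorem finrank_ker (h0 : ∃ a : L, Algebra.trace Ω L a ≠ 0) :
    Module.finrank Ω (LinearMap.ker (Algebra.trace Ω L)) + 1 = Module.finrank Ω L := by
  obtain ⟨a, ha⟩ := h0
  have h1 : LinearMap.range (Algebra.trace Ω L) = ⊤ := by
    rw [LinearMap.range_eq_top]
    intro c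
    refine ⟨(c / Algebra.trace Ω L a) • a, ?_⟩
    rw [map_smul, smul_eq_mul, div_mul_cancel₀ _ ha]
  have h2 := LinearMap.finrank_range_add_finrank_ker (Algebra.trace Ω L)
  rw [h1, finrank_top, Module.finrank_self] at h2
  omega

private theorem small_case (p : ℕ) [Fact p.Prime] [CharP Ω p] (h : AC r Ω) (hr : 1 ≤ r) (hd : Module.finrank Ω L ≤ 2 * r + 1) :
    Function.Surjective (algebraMap Ω L) := by
  have hp : p.Prime := Fact.out
  have h1 : Fx Ω (frL (Ω := Ω) (p := p) L) :=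
    main h hr (trH (Ω := Ω) (p := p) L) (trH_nd L h hr) (frL L) (trH_adj L h hr) hd
  have h2 : Submodule.span Ω {x : L | frL (Ω := Ω) (p := p) L x = x} ≤ sc Ω L := by
    rw [Submodule.span_le]
    intro x hx
    rw [Set.mem_ofPred_eq, frL_apply] at hx
    exact (mem_sc L).2 (h.fixed_mem (Nat.one_lt_pow two_ne_zero hp.one_lt) hx)
  rw [Fx] at h1
  rw [h1] at h2
  intro x
  exact (mem_sc L).1 (h2 Submodule.mem_top)

end

theorem ext_trivial {Ω : Type u} [Field Ω] {p : ℕ} [Fact p.Prime] [CharP Ω p] {r : ℕ}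
    (h : AC r Ω) (hr : 1 ≤ r) {L : Type u} [Field L] [Algebra Ω L] [FiniteDimensional Ω L]
    (hd : Module.finrank Ω L ≤ 2 * r + 2 ∨
      (Module.finrank Ω L = 2 * r + 3 ∧ p ∣ Module.finrank Ω L)) :
    Function.Surjective (algebraMap Ω L) := by
  have hp : p.Prime := Fact.out
  have : CharP L p := charP_of_injective_algebraMap (algebraMap Ω L).injective p
  rcases Nat.lt_or_ge (2 * r + 1) (Module.finrank Ω L) with hd1 | hd1
  swap
  · exact small_case L p h hr hd1
  exfalso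
  have nd := trH_nd (p := p) L h hr
  have hH := trH_apply (Ω := Ω) (p := p) L
  set H := trH (Ω := Ω) (p := p) L with hHdef
  set T : Submodule Ω L := LinearMap.ker (Algebra.trace Ω L) with hT
  have hT1 : Module.finrank Ω T + 1 = Module.finrank Ω L :=
    finrank_ker L (exists_trace L h hr)
  have hTm : ∀ x : L, x ∈ T ↔ Algebra.trace Ω L x = 0 := fun x => LinearMap.mem_ker
  set P : Submodule Ω L := T ⊓ sc Ω L with hP
  obtain ⟨K, hK⟩ := P.exists_isCompl
  set N : Submodule Ω L := K ⊓ T with hN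
  have hPT : P ≤ T := inf_le_left
  have hNT : N ≤ T := inf_le_right
  have hsup : P ⊔ N = T := by
    rw [hN, ← sup_inf_assoc_of_le K hPT, hK.sup_eq_top, top_inf_eq]
  have hinf : P ⊓ N = ⊥ := by
    rw [eq_bot_iff, ← hK.inf_eq_bot]
    exact inf_le_inf_left _ inf_le_left
  have hfin : Module.finrank Ω P + Module.finrank Ω N = Module.finrank Ω T := by
    have h1 := Submodule.finrank_sup_add_finrank_inf_eq P N
    rw [hsup, hinf, finrank_bot, add_zero] at h1
    exact h1.symm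
  have hPle : Module.finrank Ω P ≤ 1 := by
    rw [← finrank_sc (Ω := Ω) L]
    exact Submodule.finrank_mono inf_le_right
  have hNle : Module.finrank Ω N ≤ 2 * r + 1 := by
    rcases hd with hd | ⟨hd, hpd⟩
    · omega
    · have h1 : sc Ω L ≤ T := by
        rw [sc, Submodule.span_le, Set.singleton_subset_iff]
        change (1 : L) ∈ T
        rw [hTm, ← map_one (algebraMap Ω L), Algebra.trace_algebraMap, nsmul_eq_mul, mul_one]
        exact (CharP.cast_eq_zero_iff Ω p _).2 hpd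
      have h2 : P = sc Ω L := inf_eq_right.2 h1
      rw [h2, finrank_sc] at hfin
      omega
  have hNpos : 0 < Module.finrank Ω N := by omega
  -- orthogonality to `T`
  have h3 : ∀ z : L, (∀ b ∈ T, H z b = 0) → z ∈ sc Ω L := by
    intro z hz
    have h4 : sc Ω L ≤ lperp H T := by
      rw [sc, Submodule.span_le, Set.singleton_subset_iff]
      intro b hb
      rw [hH, one_mul, trace_pow L h hr, (hTm b).1 hb, zero_pow hp.ne_zero]
    have h5 := finrank_lperp nd T
    have h6 : sc Ω L = lperp H T := by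
      refine Submodule.eq_of_le_of_finrank_eq h4 ?_
      rw [finrank_sc]
      omega
    rw [h6]
    exact hz
  have hsplit : ∀ z : L, H z 1 = 0 → (∀ b ∈ N, H z b = 0) → ∀ b ∈ T, H z b = 0 := by
    intro z h1 h2 b hb
    rw [← hsup] at hb
    obtain ⟨u, hu, v, hv, rfl⟩ := Submodule.mem_sup.1 hb
    obtain ⟨c, hc⟩ := (mem_sc L).1 hu.2
    rw [map_add, h2 v hv, add_zero, ← hc, Algebra.algebraMap_eq_smul_one, LinearMap.map_smulₛₗ, h1,
      smul_zero]
  have hone : ∀ z : L, H z 1 = Algebra.trace Ω L z := by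
    intro z
    rw [hH, one_pow, mul_one]
  have ndN : ND (res H N) := by
    intro a ha
    have h1 : ∀ b ∈ N, H (a : L) b = 0 := fun b hb => ha ⟨b, hb⟩
    have h2 : (a : L) ∈ T := hNT a.2
    have h4 : (a : L) ∈ sc Ω L :=
      h3 a (hsplit a (by rw [hone]; exact (hTm _).1 h2) h1)
    have h5 : (a : L) ∈ P ⊓ N := ⟨⟨h2, h4⟩, a.2⟩
    rw [hinf, Submodule.mem_bot] at h5
    exact Subtype.ext h5
  obtain ⟨ψ, hψ⟩ := exists_adj ndN
  have hfx : Fx Ω ψ := main h hr (res H N) ndN ψ hψ hNle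
  obtain ⟨e, he⟩ := orthonormal h hr (res H N) ndN ψ hψ hfx
  have hli : LinearIndependent Ω e := on_li he
  have hspan : Submodule.span Ω (Set.range e) = ⊤ := by
    apply hli.span_eq_top_of_card_eq_finrank'
    rw [Fintype.card_fin]
  set i0 : Fin (Module.finrank Ω N) := ⟨0, hNpos⟩ with hi0
  set x : L := (e i0 : L) with hx
  have hxN : x ∈ N := (e i0).2
  have hxT : Algebra.trace Ω L x = 0 := (hTm x).1 (hNT hxN)
  have hadj := trH_adj (p := p) L h hr
  set z : L := x ^ (p ^ 2) - x with hz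
  have hz1 : H z 1 = 0 := by
    rw [hone, hz, map_sub, hxT, sub_zero, pow_two, pow_mul, trace_pow L h hr, trace_pow L h hr,
      hxT, zero_pow hp.ne_zero, zero_pow hp.ne_zero]
  have hz2 : ∀ j, H z (e j : L) = 0 := by
    intro j
    have h4 : H (x ^ (p ^ 2)) (e j : L) = H (e j : L) x ^ p := by
      have h5 := hadj (e j : L) x
      rw [frL_apply] at h5
      exact h5
    have h6 : H (e j : L) x = if j = i0 then 1 else 0 := he j i0
    have h7 : H x (e j : L) = if i0 = j then 1 else 0 := he i0 j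
    rw [hz, map_sub, LinearMap.sub_apply, h4, h6, h7]
    by_cases hj : j = i0
    · rw [if_pos hj, if_pos hj.symm, one_pow, sub_self]
    · rw [if_neg hj, if_neg (Ne.symm hj), zero_pow hp.ne_zero, sub_self]
  have hz3 : ∀ b ∈ N, H z b = 0 := by
    intro b hb
    have h4 : (⟨b, hb⟩ : N) ∈ Submodule.span Ω (Set.range e) := by
      rw [hspan]
      exact Submodule.mem_top
    have h5 : ∀ y : N, y ∈ Submodule.span Ω (Set.range e) → H z (y : L) = 0 := by
      intro y hy
      induction hy using Submodule.span_induction with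
      | mem y hy =>
        obtain ⟨j, rfl⟩ := hy
        exact hz2 j
      | zero => rw [Submodule.coe_zero, map_zero]
      | add y y' _ _ h6 h7 => rw [Submodule.coe_add, map_add, h6, h7, add_zero]
      | smul c y _ h6 => rw [Submodule.coe_smul, LinearMap.map_smulₛₗ, h6, smul_zero]
    exact h5 _ h4
  obtain ⟨c, hc⟩ := (mem_sc L).1 (h3 z (hsplit z hz1 hz3))
  obtain ⟨l, hl⟩ := h.art hr (Nat.one_lt_pow two_ne_zero hp.one_lt : 1 < p ^ 2) (-c)
  have hfix : (x + algebraMap Ω L l) ^ (p ^ 2) = x + algebraMap Ω L l := by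
    rw [add_pow_char_pow, ← map_pow]
    have h4 : l ^ (p ^ 2) = l - c := by linear_combination hl
    have h5 : x ^ (p ^ 2) = x + algebraMap Ω L c := by rw [hc, hz]; ring
    rw [h4, h5, map_sub]
    ring
  obtain ⟨a, ha⟩ := h.fixed_mem (Nat.one_lt_pow two_ne_zero hp.one_lt) hfix
  have hxs : x ∈ sc Ω L := (mem_sc L).2 ⟨a - l, by rw [map_sub, ha]; ring⟩
  have hx0 : x ∈ P ⊓ N := ⟨⟨hNT hxN, hxs⟩, hxN⟩
  rw [hinf, Submodule.mem_bot] at hx0
  have h4 : H x x = if i0 = i0 then 1 else 0 := he i0 i0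
  rw [if_pos rfl, hx0, map_zero] at h4
  exact zero_ne_one h4

end UPC
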