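import Mathlib
import Pool.Agent.UPC.Defs
import Pool.Agent.Helper85.SC.Base

/-!
# The field `M_r` (project UPC, module UPC-Tower)

`Mr k x r = ⨆ s, M k x r s`. The chain `M k x r s` is increasing (`r ≥ 1`: every `a ∈ E` is in
`br k (fun _ => a)`), so the union is directed (`IntermediateField.mem_iSup_of_directed` or
`Submodule.mem_iSup_of_directed`-like, `IntermediateField.coe_iSup_of_directed`).
`tower_ac`: finitely many elements `S ⊆ Mr`, `S.card ≤ r`, lie in one `M k x r s`, `s ≥ 1`;
enumerate them by `t : Fin r → M k x r s` (repeat an element, or `0` if `S` is empty);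
`br k t ≤ M k x r (s + 1) ≤ Mr`, `br k t` is algebraically closed (`K` is, and `br k t` is the
relative algebraic closure of a subfield; `algebraicClosure.isAlgClosure`) and contains `S`. `F` is
`br k t` as a subfield of `Mr` (`Subfield.comap` of `(br k t).toSubfield` under `Mr → K`; the
isomorphism with `br k t` transports `IsAlgClosed`, `IsAlgClosed.of_ringEquiv`).
`tower_root`: `f` is integral over `Mr`, the minimal polynomial has degree `d ≤ n`, so
`L = Mr⟮f⟯` has degree `d`; if `hext` makes `algebraMap Mr L` surjective then `f ∈ Mr`.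
-/

namespace UPC

open Pool.Agent.Helper85.SC IntermediateField

variable {k K : Type*} [Field k] [Field K] [Algebra k K]

/-- the field `M_r` -/
def Mr (k : Type*) {K : Type*} [Field k] [Field K] [Algebra k K] {n : ℕ} (x : Fin n → K)
    (r : ℕ) : IntermediateField k K := ⨆ s : ℕ, M k x r s

private theorem M_le_succ {n : ℕ} (x : Fin n → K) {r : ℕ} (hr : 1 ≤ r) (s : ℕ) :
    M k x r s ≤ M k x r (s + 1) := by
  cases s with
  | zero => exact le_refl (M k x r 1)
  | succ s => exact le_next hr (M k x r (s + 1))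

private theorem M_mono {n : ℕ} (x : Fin n → K) {r : ℕ} (hr : 1 ≤ r) : Monotone (M k x r) :=
  monotone_nat_of_le_succ (M_le_succ x hr)

theorem mem_Mr {n : ℕ} {x : Fin n → K} {r : ℕ} (hr : 1 ≤ r) {a : K} :
    a ∈ Mr k x r ↔ ∃ s : ℕ, 1 ≤ s ∧ a ∈ M k x r s := by
  constructor
  · intro ha
    have h := coe_iSup_of_directed (M_mono (k := k) x hr).directed_le
    have h1 : a ∈ ((⨆ s : ℕ, M k x r s : IntermediateField k K) : Set K) := ha
    rw [h, Set.mem_iUnion] at h1
    obtain ⟨s, hs⟩ := h1
    exact ⟨s + 1, Nat.le_add_left 1 s, M_mono (k := k) x hr (Nat.le_succ s) hs⟩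
  · rintro ⟨s, _, hs⟩
    exact le_iSup (fun s => M k x r s) s hs

theorem tower_ac [IsAlgClosed K] {n : ℕ} (x : Fin n → K) {r : ℕ} (hr : 1 ≤ r) :
    AC r (Mr k x r) := by
  classical
  intro S hS
  have h1 : ∀ a : Mr k x r, ∃ s : ℕ, 1 ≤ s ∧ (a : K) ∈ M k x r s := fun a => (mem_Mr hr).1 a.2
  choose g _ hg2 using h1
  have h2 : ∀ a ∈ S, (a : K) ∈ M k x r (S.sup g + 1) := fun a ha =>
    M_mono (k := k) x hr ((Finset.le_sup (f := g) ha).trans (Nat.le_succ _)) (hg2 a)
  let t : Fin r → K := fun i =>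
    if h : (i : ℕ) < S.card then ((S.equivFin.symm ⟨i, h⟩ : S) : Mr k x r) else 0
  have ht : ∀ i, t i ∈ M k x r (S.sup g + 1) := by
    intro i
    simp only [t]
    split_ifs with h
    · exact h2 _ (S.equivFin.symm ⟨i, h⟩).2
    · exact zero_mem _
  have hSt : ∀ a ∈ S, ∃ i, t i = (a : K) := by
    intro a ha
    refine ⟨⟨S.equivFin ⟨a, ha⟩, lt_of_lt_of_le (S.equivFin ⟨a, ha⟩).2 hS⟩, ?_⟩
    have h3 : ((S.equivFin ⟨a, ha⟩ : Fin S.card) : ℕ) < S.card := (S.equivFin ⟨a, ha⟩).2
    simp only [t]
    rw [dif_pos h3]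
    simp
  have hbr : br k t ≤ Mr k x r :=
    (br_le_next t ht).trans (le_iSup (fun s => M k x r s) (S.sup g + 2))
  have hcl : IsAlgClosed (br k t) :=
    IsAlgClosure.isAlgClosed (R := adjoin k (Set.range t))
      (K := algebraicClosure (adjoin k (Set.range t)) K)
  let e : br k t ≃+* ((br k t).toSubfield.comap (Mr k x r).val.toRingHom) :=
    { toFun := fun a => ⟨⟨a, hbr a.2⟩, a.2⟩
      invFun := fun b => ⟨(b : Mr k x r), b.2⟩
      left_inv := fun a => rfl
      right_inv := fun b => rfl
      map_mul' := fun a b => rfl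
      map_add' := fun a b => rfl }
  refine ⟨(br k t).toSubfield.comap (Mr k x r).val.toRingHom, ?_, ?_⟩
  · exact IsAlgClosed.of_ringEquiv _ _ e
  · intro a ha
    obtain ⟨i, hi⟩ := hSt a ha
    change (a : K) ∈ br k t
    rw [← hi]
    exact subset_br t i

theorem tower_root {n : ℕ} (x : Fin n → K) (E : IntermediateField k K)
    (hE : adjoin k (Set.range x) ≤ E) (N : ℕ → Prop)
    (hN : ∀ d, d < n → N d) (hn : N n)
    (hext : ∀ (L : IntermediateField E K), FiniteDimensional E L → N (Module.finrank E L) →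
      Function.Surjective (algebraMap E L))
    (f : K) (hf : f ^ n + ∑ i : Fin n, x i * f ^ (n - 1 - (i : ℕ)) = 0) : f ∈ E := by
  classical
  rcases Nat.eq_zero_or_pos n with rfl | hn0
  · simp at hf
  have hx : ∀ i, x i ∈ E := fun i => hE (subset_adjoin k _ (Set.mem_range_self i))
  let Q : Polynomial E := ∑ i : Fin n, Polynomial.C (⟨x i, hx i⟩ : E) *
    Polynomial.X ^ (n - 1 - (i : ℕ))
  have hQ : Q.degree < n := by
    rw [← Polynomial.mem_degreeLT]
    refine Submodule.sum_mem _ fun i _ => ?_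
    rw [Polynomial.mem_degreeLT]
    refine (Polynomial.degree_C_mul_X_pow_le _ _).trans_lt ?_
    exact_mod_cast (by omega : n - 1 - (i : ℕ) < n)
  have hmon : (Polynomial.X ^ n + Q).Monic := Polynomial.monic_X_pow_add hQ
  have hdeg : (Polynomial.X ^ n + Q).natDegree = n := by
    have h1 : (Polynomial.X ^ n + Q).degree = (n : WithBot ℕ) := by
      rw [Polynomial.degree_add_eq_left_of_degree_lt, Polynomial.degree_X_pow]
      rwa [Polynomial.degree_X_pow]
    exact Polynomial.natDegree_eq_of_degree_eq_some h1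
  have hev : Polynomial.aeval f (Polynomial.X ^ n + Q) = 0 := by
    rw [map_add, map_pow, Polynomial.aeval_X, map_sum, ← hf]
    congr 1
    refine Finset.sum_congr rfl fun i _ => ?_
    rw [map_mul, map_pow, Polynomial.aeval_X, Polynomial.aeval_C]
    rfl
  have hint : IsIntegral E f := ⟨Polynomial.X ^ n + Q, hmon, by
    rw [← Polynomial.aeval_def]
    exact hev⟩
  have hle : (minpoly E f).natDegree ≤ n := by
    rw [← hdeg]
    exact Polynomial.natDegree_le_of_dvd (minpoly.dvd E f hev) hmon.ne_zero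
  have hfd : FiniteDimensional E (adjoin E {f}) := adjoin.finiteDimensional hint
  have hfr : Module.finrank E (adjoin E {f}) = (minpoly E f).natDegree := adjoin.finrank hint
  have hN' : N (Module.finrank E (adjoin E {f})) := by
    rw [hfr]
    rcases hle.lt_or_eq with h | h
    · exact hN _ h
    · rw [h]
      exact hn
  obtain ⟨a, ha⟩ := hext (adjoin E {f}) hfd hN' ⟨f, mem_adjoin_simple_self E f⟩
  have h1 : (a : K) = f := congrArg Subtype.val ha
  rw [← h1]
  exact a.2

end UPC
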