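import Mathlib
import Pool.Agent.UPC.FieldExt
import Pool.Agent.UPC.Tower

/-!
# The theorem (project UPC)
-/

namespace UPC

open Pool.Agent.Helper85.SC IntermediateField

universe u v

theorem final {k : Type v} {K : Type u} [Field k] [Field K] [Algebra k K] {p : ℕ}
    [Fact p.Prime] [CharP k p] [IsAlgClosed K] {n r : ℕ} (hr : 1 ≤ r)
    (hn : n ≤ 2 * r + 2 ∨ (n = 2 * r + 3 ∧ p ∣ n)) (x : Fin n → K)
    (f : K) (hf : f ^ n + ∑ i : Fin n, x i * f ^ (n - 1 - (i : ℕ)) = 0) :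
    ∃ s : ℕ, 1 ≤ s ∧ f ∈ M k x r s := by
  rw [← mem_Mr hr]
  have hac := tower_ac (k := k) x hr
  haveI : CharP (Mr k x r) p :=
    charP_of_injective_algebraMap (algebraMap k (Mr k x r)).injective p
  refine tower_root x (Mr k x r) ?_ (fun d => d ≤ 2 * r + 2 ∨ (d = 2 * r + 3 ∧ p ∣ d)) ?_ hn ?_ f hf
  · exact le_iSup (fun s => M k x r s) 1
  · intro d hd
    left
    omega
  · intro L hL hd
    exact ext_trivial hac hr hd

end UPC
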